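import Pool.Agent.Lib_helper61.PSL.Coll

/-!
# The collapse for p-selective sets with a priority function
-/

set_option autoImplicit false

namespace Pool.Agent.PSL

open Pool.Agent.CK Pool.Agent.CKP

variable {O : Lang}

/-! ### the dictionary order -/

theorem le_refl' (x : List Bool) : le x x = true := by
  induction x with
  | nil => rfl
  | cons a x ih => simp [le, ih]

theorem le_trans' {x y z : List Bool} (h : le x y = true) (h' : le y z = true) :
    le x z = true := by
  induction x generalizing y z with
  | nil => rfl
  | cons a x ih =>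
    cases y with
    | nil => simp [le] at h
    | cons b y =>
      cases z with
      | nil => simp [le] at h'
      | cons c z =>
        have := @ih y z
        cases a <;> cases b <;> cases c <;> simp_all [le]

theorem exists_max_le {α : Type} (g : α → List Bool) (S : Set α) (hS : S.Finite)
    (hne : S.Nonempty) : ∃ x ∈ S, ∀ y ∈ S, le (g y) (g x) = true := by
  induction S, hS using Set.Finite.induction_on with
  | empty => exact absurd hne (by simp)
  | @insert a s _ _ ih =>
    by_cases hs : s.Nonempty
    · obtain ⟨x, hx, hx2⟩ := ih hs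
      rcases le_total (g a) (g x) with h | h
      · refine ⟨x, Set.mem_insert_of_mem _ hx, fun y hy => ?_⟩
        rcases Set.mem_insert_iff.1 hy with rfl | hy
        · exact h
        · exact hx2 y hy
      · refine ⟨a, Set.mem_insert _ _, fun y hy => ?_⟩
        rcases Set.mem_insert_iff.1 hy with rfl | hy
        · exact le_refl' _
        · exact le_trans' (hx2 y hy) h
    · rw [Set.not_nonempty_iff_eq_empty] at hs
      subst hs
      exact ⟨a, by simp, fun y hy => by
        have : y = a := by simpa using hy
        rw [this]
        exact le_refl' _⟩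

/-- one step of the search of the maximum -/
def mstep (S : List Bool → Bool) (u : List Bool) : List Bool :=
  if S (u ++ [true]) = true then u ++ [true] else if S (u ++ [false]) = true then u ++ [false]
  else u

theorem le_app (u v w : List Bool) : le (u ++ v) (u ++ w) = le v w := by
  induction u with
  | nil => rfl
  | cons a u ih => simp [le, ih]

theorem mstep_take {S : List Bool → Bool} {G : List Bool} (hS : ∀ v, S v = le v G) (k : ℕ) :
    mstep S (G.take k) = G.take (k + 1) := by
  unfold mstep
  rw [hS, hS]
  by_cases hk : k < G.length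
  · have e1 : G = G.take k ++ G.drop k := (List.take_append_drop k G).symm
    have e2 : G.drop k = G[k] :: G.drop (k + 1) := List.drop_eq_getElem_cons hk
    have e3 : G.take (k + 1) = G.take k ++ [G[k]] := List.take_succ_eq_append_getElem hk
    have h1 : le (G.take k ++ [true]) G = G[k] := by
      conv_lhs => rw [e1, e2]
      have : (G.take k ++ G[k] :: G.drop (k + 1)).take k = G.take k := by
        rw [← e2, List.take_append_drop]
      rw [this, le_app]
      cases G[k] <;> simp [le]
    have h2 : le (G.take k ++ [false]) G = true := by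
      conv_lhs => rw [e1, e2]
      have : (G.take k ++ G[k] :: G.drop (k + 1)).take k = G.take k := by
        rw [← e2, List.take_append_drop]
      rw [this, le_app]
      cases G[k] <;> simp [le]
    rw [h1, h2, e3]
    cases G[k] <;> simp
  · have e1 : G.take k = G := List.take_of_length_le (by omega)
    have e2 : G.take (k + 1) = G := List.take_of_length_le (by omega)
    rw [e1, e2]
    have h : ∀ b : Bool, le (G ++ [b]) G = false := by
      intro b
      have := le_app G [b] []
      rw [List.append_nil] at this
      rw [this]
      rfl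
    rw [h, h]
    simp

theorem mstep_iter {S : List Bool → Bool} {G : List Bool} (hS : ∀ v, S v = le v G)
    (l : List Unit) (hl : G.length ≤ l.length) : l.foldl (fun u _ => mstep S u) [] = G := by
  have key : ∀ (l : List Unit) (k : ℕ), l.foldl (fun u _ => mstep S u) (G.take k) =
      G.take (k + l.length) := by
    intro l
    induction l with
    | nil => intro k; rfl
    | cons a t ih =>
      intro k
      rw [List.foldl_cons, mstep_take hS, ih, List.length_cons]
      congr 1
      omega
  have := key l 0
  rw [List.take_zero, Nat.zero_add, List.take_of_length_le hl] at this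
  exact this

/-! ### the NP search predicate -/

/-- the code of a question -/
def sc (l : List Unit) (v : List Bool) : List Bool := (D.cons (toD l) (toD v)).enc

/-- the verifier -/
def sV (O : Lang) (c : Cmd) (e : ℕ) (g : List Bool → List Bool) (p : List Bool × List Bool) :
    Bool :=
  (decide ((toBits (dec p.2).car).length ≤ (toList (dec p.1).car).length) &&
    decide ((toBits (dec p.2).cdr).length ≤ ((toBits (dec p.2).car).length + 2) ^ e)) &&
  (accB O c (toBits (dec p.2).car) (toBits (dec p.2).cdr)
    (((toBits (dec p.2).car).length + 2) ^ e) &&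
    le (toBits (dec p.1).cdr) (g (toBits (dec p.2).car)))

theorem ptime_sV (c : Cmd) (e : ℕ) {g : List Bool → List Bool} (hg : PTime O g) :
    PTime O (sV O c e g) := by
  unfold sV
  have hx : PTime O (fun p : List Bool × List Bool => toBits (dec p.2).car) :=
    PTime.id.snd.dec.car.toBits
  have hy : PTime O (fun p : List Bool × List Bool => toBits (dec p.2).cdr) :=
    PTime.id.snd.dec.cdr.toBits
  have hn : PTime O (fun p : List Bool × List Bool => (toList (dec p.1).car).length) :=
    PTime.length (PTime.id.fst.dec.car.toList)
  have hv : PTime O (fun p : List Bool × List Bool => toBits (dec p.1).cdr) :=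
    PTime.id.fst.dec.cdr.toBits
  have hT : PTime O (fun p : List Bool × List Bool =>
      List.replicate (((toBits (dec p.2).car).length + 2) ^ e) ()) := (UPoly.tb e).comp hx
  have hTn : PTime O (fun p : List Bool × List Bool =>
      ((toBits (dec p.2).car).length + 2) ^ e) :=
    (PTime.length hT).of_eq fun p => List.length_replicate
  refine ((PTime.nat_le (PTime.length hx) hn).and (PTime.nat_le (PTime.length hy) hTn)).and
    (PTime.and ?_ (ptime_le hv (hg.comp hx)))
  exact ptime_accB (P := fun _ : List Bool × List Bool => O)
    (PTime.ask PTime.id.snd) c hx hy hT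

open Classical in
/-- the search language: is there `x ∈ A`, `|x| ≤ n`, with `v ≤ g x` ? -/
noncomputable def sL (A : Lang) (g : List Bool → List Bool) : Lang := fun w =>
  decide (∃ x : List Bool, x.length ≤ (toList (dec w).car).length ∧ A x = true ∧
    le (toBits (dec w).cdr) (g x) = true)

theorem sL_sc (A : Lang) (g : List Bool → List Bool) (l : List Unit) (v : List Bool) :
    sL A g (sc l v) = true ↔
      ∃ x : List Bool, x.length ≤ l.length ∧ A x = true ∧ le v (g x) = true := by
  classical
  have e1 : dec (sc l v) = D.cons (toD l) (toD v) := dec_enc _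
  have e2 : (toList (dec (sc l v)).car).length = l.length := by
    rw [e1]
    show (toList (toD l)).length = _
    rw [toList_toD, List.length_map]
  have e3 : toBits (dec (sc l v)).cdr = v := by
    rw [e1]
    exact toBits_toD v
  unfold sL
  rw [decide_eq_true_eq, e2, e3]

theorem sL_inNP {A : Lang} (hA : InNP O A) {g : List Bool → List Bool} (hg : PTime O g) :
    InNP O (sL A g) := by
  classical
  obtain ⟨i, rfl⟩ := exists_NL hA
  refine inNP_of (V := sV O (prog i) (ex i) g) (ptime_sV _ _ hg)
    (B := fun n => 4 * (3 * n + 1) + 4 * (3 * n + 3) ^ ex i + 3)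
    ((((UPoly.const 4).mul (((UPoly.const 3).mul UPoly.id).add (UPoly.const 1))).add
      ((UPoly.const 4).mul ((((UPoly.const 3).mul UPoly.id).add
        (UPoly.const 3)).pow (ex i)))).add (UPoly.const 3)) ?_ ?_
  · intro w hw
    unfold sL at hw
    rw [decide_eq_true_eq] at hw
    obtain ⟨x, hx, hx2, hx3⟩ := hw
    unfold NL at hx2
    rw [decide_eq_true_eq] at hx2
    obtain ⟨y, hy, hy2⟩ := hx2
    refine ⟨(D.cons (toD x) (toD y)).enc, ?_, ?_⟩
    · rw [D.enc_length]
      have h1 : (D.cons (toD x) (toD y)).size = (toD x).size + (toD y).size + 1 := rfl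
      have h2 := size_bits x
      have h3 := size_bits y
      have h4 := toList_len (dec w).car
      have h5 := car_size (dec w)
      have h6 := size_dec_le w
      have h7 : (x.length + 2) ^ ex i ≤ (3 * w.length + 3) ^ ex i :=
        Nat.pow_le_pow_left (by omega) _
      rw [h1]
      omega
    · have e1 : dec (D.cons (toD x) (toD y)).enc = D.cons (toD x) (toD y) := dec_enc _
      have e2 : toBits (D.cons (toD x) (toD y)).car = x := toBits_toD x
      have e3 : toBits (D.cons (toD x) (toD y)).cdr = y := toBits_toD y
      unfold sV
      simp only [e1, e2, e3, Bool.and_eq_true, decide_eq_true_eq]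
      exact ⟨⟨hx, hy⟩, hy2, hx3⟩
  · intro w y h
    unfold sV at h
    simp only [Bool.and_eq_true, decide_eq_true_eq] at h
    obtain ⟨⟨h1, h2⟩, h3, h4⟩ := h
    unfold sL
    rw [decide_eq_true_eq]
    refine ⟨_, h1, ?_, h4⟩
    unfold NL
    rw [decide_eq_true_eq]
    exact ⟨_, h2, h3⟩

/-! ### the advice -/

/-- the advice: nothing, or a bound for the priorities -/
def adv (S : Lang) (stp : List Unit → List Unit) (l : List Unit) : List Bool :=
  if S (sc l []) = true then
    true :: (stp l).foldl (fun u _ => mstep (fun v => S (sc l v)) u) [] else []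

/-- the answer given by the advice -/
def aq (g : List Bool → List Bool) (a z : List Bool) : Bool :=
  lcase a false fun _ u => le (g z) u

/-- `A` is closed under smaller or equal priorities. -/
def PrioClosed (g : List Bool → List Bool) (A : Lang) : Prop :=
  ∀ x y : List Bool, le (g x) (g y) = true → A y = true → A x = true

theorem adv_spec {A : Lang} {g : List Bool → List Bool} (hmono : PrioClosed g A)
    {stp : List Unit → List Unit} (hstp : ∀ (l : List Unit) (x : List Bool),
      x.length ≤ l.length → (g x).length ≤ (stp l).length) (l : List Unit) (z : List Bool)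
    (hz : z.length ≤ l.length) : aq g (adv (sL A g) stp l) z = A z := by
  by_cases h : sL A g (sc l []) = true
  · have h0 := (sL_sc A g l []).1 h
    obtain ⟨x0, hx0, hx1, -⟩ := h0
    set T : Set (List Bool) := {x | x.length ≤ l.length ∧ A x = true} with hT
    have hfin : T.Finite := (List.finite_length_le Bool l.length).subset fun _ hx => hx.1
    obtain ⟨m, ⟨hm1, hm2⟩, hm3⟩ := exists_max_le g T hfin ⟨x0, hx0, hx1⟩
    have hS : ∀ v, sL A g (sc l v) = le v (g m) := by
      intro v
      rw [Bool.eq_iff_iff, sL_sc]
      constructor
      · rintro ⟨x, hx, hx2, hx3⟩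
        exact le_trans' hx3 (hm3 x ⟨hx, hx2⟩)
      · intro hv
        exact ⟨m, hm1, hm2, hv⟩
    unfold adv
    rw [if_pos h, mstep_iter hS (stp l) (hstp l m hm1)]
    show le (g z) (g m) = A z
    rw [Bool.eq_iff_iff]
    exact ⟨fun hc => hmono z m hc hm2, fun hc => hm3 z ⟨hz, hc⟩⟩
  · unfold adv
    rw [if_neg h]
    show false = A z
    by_contra hc
    have hA : A z = true := by
      cases hh : A z
      · exact absurd hh.symm hc
      · rfl
    exact h ((sL_sc A g l []).2 ⟨z, hz, hA, rfl⟩)

theorem ptime_sc {P : Lang} {γ : Type} [ToD γ] {l : γ → List Unit} {v : γ → List Bool}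
    (hl : PTime P l) (hv : PTime P v) : PTime P (fun a => sc (l a) (v a)) :=
  PTime.enc (hl.code.consD hv.code)

theorem ptime_adv {P S : Lang} (hS : PTime P S) {stp : List Unit → List Unit}
    (hstp : PTime P stp) : PTime P (adv S stp) := by
  unfold adv
  have hl : PTime P (fun p : List Unit × List Bool × Unit => p.1) := PTime.id.fst
  have hu : PTime P (fun p : List Unit × List Bool × Unit => p.2.1) := PTime.id.snd.fst
  have hb : ∀ b : Bool, PTime P (fun p : List Unit × List Bool × Unit => p.2.1 ++ [b]) :=
    fun b => hu.append (PTime.const [b])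
  have hstep : PTime P (fun p : List Unit × List Bool × Unit =>
      mstep (fun v => S (sc p.1 v)) p.2.1) := by
    unfold mstep
    exact PTime.ite (hS.comp (ptime_sc hl (hb true))) (hb true)
      (PTime.ite (hS.comp (ptime_sc hl (hb false))) (hb false) hu)
  refine PTime.ite (hS.comp (ptime_sc PTime.id (PTime.const [])))
    (PTime.cons (PTime.const true) ?_) (PTime.const [])
  refine PTime.foldl_add (l := stp) (i := fun _ => ([] : List Bool))
    (s := fun l u _ => mstep (fun v => S (sc l v)) u) hstp (PTime.const _) hstep
    (Polynomial.C 4) ?_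
  intro x b a _
  rw [Polynomial.eval_C]
  unfold mstep
  split_ifs
  · rw [sz_snoc, sz_true]
  · rw [sz_snoc, sz_false]
    omega
  · omega

/-! ### the collapse -/

/-- the second oracle, computed from the advice -/
def pBQ (O : Lang) (g : List Bool → List Bool) (c : Cmd) (k : ℕ) (a : List Bool) : Lang :=
  fun q => accB (join O (aq g a)) c q [] ((q.length + 2) ^ k)

/-- the verifier -/
def pV (O : Lang) (g : List Bool → List Bool) (c : Cmd) (k : ℕ) (d : Cmd) (l : ℕ)
    (p : List Bool × List Bool) : Bool :=
  decide (p.2.length ≤ ((toBits (dec p.1).car).length + 2) ^ l) &&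
    accB (join O (pBQ O g c k (toBits (dec p.1).cdr))) d (toBits (dec p.1).car) p.2
      (((toBits (dec p.1).car).length + 2) ^ l)

theorem ptime_pBQ {γ : Type} [ToD γ] {g : List Bool → List Bool} (hg : PTime O g) (c : Cmd)
    (k : ℕ) {u : γ → List Bool} (hu : PTime O u) :
    PTime O (fun p : γ × List Bool => pBQ O g c k (u p.1) p.2) := by
  unfold pBQ
  have h1 : PTime O (fun q : (γ × List Bool) × List Bool => aq g (u q.1.1) q.2) := by
    unfold aq
    exact PTime.lcase (l := fun q : (γ × List Bool) × List Bool => u q.1.1)
      (n := fun _ => false) (c := fun q _ v => le (g q.2) v) (hu.comp PTime.id.fst.fst)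
      (PTime.const false) (ptime_le (hg.comp PTime.id.fst.snd) PTime.id.snd.snd)
  have h2 := ptime_join (O := O) (B := fun (p : γ × List Bool) (z : List Bool) =>
    aq g (u p.1) z) h1
  exact ptime_accB (P := fun p : γ × List Bool => join O (aq g (u p.1))) h2 c
    PTime.id.snd (PTime.const []) ((UPoly.tb k).comp PTime.id.snd)

theorem ptime_pV {g : List Bool → List Bool} (hg : PTime O g) (c : Cmd) (k : ℕ) (d : Cmd)
    (l : ℕ) : PTime O (pV O g c k d l) := by
  unfold pV
  have hx : PTime O (fun p : List Bool × List Bool => toBits (dec p.1).car) :=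
    PTime.id.fst.dec.car.toBits
  have hu : PTime O (fun p : List Bool × List Bool => toBits (dec p.1).cdr) :=
    PTime.id.fst.dec.cdr.toBits
  have hT : PTime O (fun p : List Bool × List Bool =>
      List.replicate (((toBits (dec p.1).car).length + 2) ^ l) ()) := (UPoly.tb l).comp hx
  have hTn : PTime O (fun p : List Bool × List Bool =>
      ((toBits (dec p.1).car).length + 2) ^ l) :=
    (PTime.length hT).of_eq fun p => List.length_replicate
  refine (PTime.nat_le (PTime.length PTime.id.snd) hTn).and ?_
  exact ptime_accB (P := fun p : List Bool × List Bool =>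
    join O (pBQ O g c k (toBits (dec p.1).cdr)))
    (ptime_join (B := fun p : List Bool × List Bool => pBQ O g c k (toBits (dec p.1).cdr))
      (ptime_pBQ hg c k hu)) d hx PTime.id.snd hT

/-- One step of the collapse. -/
theorem prio_step {L : Lang} {g : List Bool → List Bool} (hg : InFP O g)
    (hmono : PrioClosed g L) (hC : TuringComplete O L) {B A : Lang}
    (hB : InP (join O L) B) (hA : InNP (join O B) A) : InP (join O L) A := by
  classical
  have hgP := ptime_of_inFP hg
  obtain ⟨b, hb⟩ := exists_PL hB
  obtain ⟨i, hi⟩ := exists_NL hA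
  set A' : Lang := fun w => decide (∃ y, pV O g (prog b) (ex b) (prog i) (ex i) (w, y) = true)
    with hA'
  have hA'NP : InNP O A' := by
    refine inNP_of (V := pV O g (prog b) (ex b) (prog i) (ex i)) (ptime_pV hgP _ _ _ _)
      (B := fun n => (3 * n + 3) ^ ex i)
      ((((UPoly.const 3).mul UPoly.id).add (UPoly.const 3)).pow (ex i)) ?_ ?_
    · intro w hw
      simp only [hA', decide_eq_true_eq] at hw
      obtain ⟨y, hy⟩ := hw
      refine ⟨y, ?_, hy⟩
      unfold pV at hy
      rw [Bool.and_eq_true, decide_eq_true_eq] at hy
      refine hy.1.trans (Nat.pow_le_pow_left ?_ _)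
      have h1 := toBits_len (dec w).car
      have h2 := car_size (dec w)
      have h3 := size_dec_le w
      show (toBits (dec w).car).length + 2 ≤ 3 * w.length + 3
      omega
    · intro w y hy
      simp only [hA', decide_eq_true_eq]
      exact ⟨y, hy⟩
  -- the advice
  obtain ⟨Q, hQ⟩ := hgP.size_le
  set stp : List Unit → List Unit := fun l => List.replicate (Q.eval (4 * l.length + 1)) ()
    with hstp
  have hstpP : PTime (join O L) stp := by
    have h1 : UPoly (join O L) (fun n => 4 * n + 1) :=
      ((UPoly.const 4).mul UPoly.id).add (UPoly.const 1)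
    exact UPoly.comp2 (UPoly.poly Q) h1
  have hstp2 : ∀ (l : List Unit) (x : List Bool), x.length ≤ l.length →
      (g x).length ≤ (stp l).length := by
    intro l x hx
    rw [hstp]
    simp only [List.length_replicate]
    refine (length_le_sz (g x)).trans ((hQ x).trans (poly_mono Q ?_))
    have := size_bits x
    show (toD x).size ≤ _
    omega
  have hSP : PTime (join O L) (sL L g) := ptime_of_inP (hC.2 _ (sL_inNP hC.1 hgP))
  have hadvP : PTime (join O L) (adv (sL L g) stp) := ptime_adv hSP hstpP
  set l : ℕ → ℕ := fun n => n + (n + 2) ^ ex i + (n + 2) ^ ex i with hl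
  set M : ℕ → ℕ := fun n => l n + (l n + 2) ^ ex b with hM
  have hlP : UPoly (join O L) l := ((UPoly.id).add (UPoly.tb (ex i))).add (UPoly.tb (ex i))
  have hMP : UPoly (join O L) M := hlP.add ((hlP.add (UPoly.const 2)).pow (ex b))
  have hs : PTime (join O L) (fun x : List Bool =>
      adv (sL L g) stp (List.replicate (M x.length) ())) := hadvP.comp (hMP.comp PTime.id)
  have hcode : PTime (join O L) (fun x : List Bool =>
      (D.cons (toD x) (toD (adv (sL L g) stp (List.replicate (M x.length) ())))).enc) :=
    PTime.enc ((PTime.id (α := List Bool)).code.consD hs.code)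
  have hfin := (ptime_of_inP (hC.2 A' hA'NP)).comp hcode
  refine inP_of (hfin.of_eq fun x => ?_)
  set u := adv (sL L g) stp (List.replicate (M x.length) ()) with hu
  set w := (D.cons (toD x) (toD u)).enc with hw
  have hdec : dec w = D.cons (toD x) (toD u) := by rw [hw, dec_enc]
  have hx1 : toBits (dec w).car = x := by rw [hdec]; exact toBits_toD x
  have hu1 : toBits (dec w).cdr = u := by rw [hdec]; exact toBits_toD u
  -- the answers agree
  have hlen : ∀ q : List Bool, q.length ≤ l x.length →
      pBQ O g (prog b) (ex b) u q = B q := by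
    intro q hq
    rw [← hb]
    unfold pBQ PL
    refine mach_accB_congr _ _ _ _ _ _ q.length (q.length + (q.length + 2) ^ ex b) le_rfl
      (Nat.zero_le _) le_rfl ?_
    intro v hv
    match v with
    | [] => rfl
    | false :: v => rfl
    | true :: v =>
      show aq g u v = L v
      rw [hu]
      apply adv_spec hmono hstp2
      rw [List.length_replicate]
      simp only [List.length_cons] at hv
      have h1 : (q.length + 2) ^ ex b ≤ (l x.length + 2) ^ ex b :=
        Nat.pow_le_pow_left (by omega) _
      show v.length ≤ l x.length + (l x.length + 2) ^ ex b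
      omega
  have key : ∀ y : List Bool, y.length ≤ (x.length + 2) ^ ex i →
      accB (join O (pBQ O g (prog b) (ex b) u)) (prog i) x y ((x.length + 2) ^ ex i) =
      accB (join O B) (prog i) x y ((x.length + 2) ^ ex i) := by
    intro y hy
    refine mach_accB_congr _ _ _ _ _ _ (x.length + (x.length + 2) ^ ex i) (l x.length) (by omega)
      (by omega) le_rfl ?_
    intro v hv
    match v with
    | [] => rfl
    | false :: v => rfl
    | true :: v =>
      simp only [List.length_cons] at hv
      exact hlen v (by omega)
  rw [← hi]
  show A' w = NL i (join O B) x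
  rw [hA']
  unfold NL
  simp only
  rw [decide_eq_decide]
  constructor
  · rintro ⟨y, hy⟩
    unfold pV at hy
    simp only [hx1, hu1] at hy
    rw [Bool.and_eq_true, decide_eq_true_eq] at hy
    exact ⟨y, hy.1, by rw [← key y hy.1]; exact hy.2⟩
  · rintro ⟨y, hy1, hy2⟩
    refine ⟨y, ?_⟩
    unfold pV
    simp only [hx1, hu1]
    rw [Bool.and_eq_true, decide_eq_true_eq]
    exact ⟨hy1, by rw [key y hy1]; exact hy2⟩

/-- The collapse: if a set that is closed under smaller priorities is `≤_T^P`-complete for `NP^O`,
then the polynomial hierarchy relative to `O` is contained in `P^(O ⊕ L)`. -/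
theorem prio_collapse {L : Lang} {g : List Bool → List Bool} (hg : InFP O g)
    (hmono : PrioClosed g L) (hC : TuringComplete O L) :
    ∀ (k : ℕ) (A : Lang), SigmaP O k A → TuringReducible O A L
  | 0, _, hA => inP_of (ptime_of_inP hA).lift
  | k + 1, _, ⟨_, hB, hA⟩ => prio_step hg hmono hC (prio_collapse hg hmono hC k _ hB) hA

/-- `L` is p-selective relative to `O`: the selector may use the oracle `O`. -/
def PSelectiveRel (O L : Lang) : Prop :=
  ∃ (c : Cmd) (k : ℕ), ∀ x y : List Bool,
    Halts O c x y ((x.length + y.length + 2) ^ k) ∧
      ∃ z : List Bool, (run O c x y ((x.length + y.length + 2) ^ k)).2 0 = z ∧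
        (z = x ∨ z = y) ∧ ((L x = true ∨ L y = true) → L z = true)

theorem prio_sel {L : Lang} {g : List Bool → List Bool} (hg : InFP O g)
    (hmono : PrioClosed g L) : PSelectiveRel O L := by
  have hgP := ptime_of_inFP hg
  have hf : PTime O (fun p : List Bool × List Bool =>
      if le (g p.1) (g p.2) = true then p.1 else p.2) :=
    PTime.ite (ptime_le (hgP.comp PTime.id.fst) (hgP.comp PTime.id.snd)) PTime.id.fst
      PTime.id.snd
  obtain ⟨c, k, h⟩ := two_inputs hf
  refine ⟨c, k, fun x y => ⟨(h x y).1, _, (h x y).2, ?_, ?_⟩⟩
  · show (if le (g x) (g y) = true then x else y) = x ∨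
      (if le (g x) (g y) = true then x else y) = y
    split_ifs
    · exact Or.inl rfl
    · exact Or.inr rfl
  · intro hxy
    show L (if le (g x) (g y) = true then x else y) = true
    split_ifs with hc
    · rcases hxy with hx | hy
      · exact hx
      · exact hmono x y hc hy
    · rcases hxy with hx | hy
      · exact hmono y x ((le_total (g x) (g y)).resolve_left hc) hx
      · exact hy

end Pool.Agent.PSL
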