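import Pool.Agent.Lib_helper61.PSL.Ord

/-!
# Oracles that answer universal `NP` questions to whoever knows the secret sequence
-/

set_option autoImplicit false

namespace Pool.Agent.PSL

open Pool.Agent.CK Pool.Agent.CKP

/-- the question whether `u` is a password -/
def qA (u : List Bool) : List Bool := (D.cons .nil (toD u)).enc

/-- the question about `w` with password `u` -/
def qB (u w : List Bool) : List Bool := (D.cons (.cons .nil (toD w)) (toD u)).enc

/-- the password in an oracle string -/
def pw (q : List Bool) : List Bool :=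
  if (toBits (dec q).cdr).length ≤ q.length then toBits (dec q).cdr else []

/-- the question in an oracle string -/
def qw (q : List Bool) : List Bool := toBits (dec q).car.cdr

/-- oracle strings of the first kind -/
def isA (q : List Bool) : Bool := decide ((dec q).car = D.nil)

theorem pw_le (q : List Bool) : (pw q).length ≤ q.length := by
  unfold pw
  split_ifs with h
  · exact h
  · simp

theorem len_le_size (u : List Bool) : u.length ≤ (toD u).size := length_le_sz u

theorem pw_qA (u : List Bool) : pw (qA u) = u := by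
  have h1 : toBits (dec (qA u)).cdr = u := by
    unfold qA
    rw [dec_enc]
    exact toBits_toD u
  have h2 : u.length ≤ (qA u).length := by
    unfold qA
    rw [D.enc_length]
    have := len_le_size u
    simp only [D.size]
    omega
  unfold pw
  rw [h1, if_pos h2]

theorem pw_qB (u w : List Bool) : pw (qB u w) = u := by
  have h1 : toBits (dec (qB u w)).cdr = u := by
    unfold qB
    rw [dec_enc]
    exact toBits_toD u
  have h2 : u.length ≤ (qB u w).length := by
    unfold qB
    rw [D.enc_length]
    have := len_le_size u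
    simp only [D.size]
    omega
  unfold pw
  rw [h1, if_pos h2]

theorem isA_qA (u : List Bool) : isA (qA u) = true := by
  unfold isA qA
  rw [dec_enc]
  simp [D.car]

theorem isA_qB (u w : List Bool) : isA (qB u w) = false := by
  unfold isA qB
  rw [dec_enc]
  simp [D.car]

theorem qw_qB (u w : List Bool) : qw (qB u w) = w := by
  unfold qw qB
  rw [dec_enc]
  exact toBits_toD w

theorem lt_len_qA (u : List Bool) : u.length < (qA u).length := by
  unfold qA
  rw [D.enc_length]
  have := len_le_size u
  simp only [D.size]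
  omega

theorem lt_len_qB (u w : List Bool) : u.length < (qB u w).length := by
  unfold qB
  rw [D.enc_length]
  have := len_le_size u
  simp only [D.size]
  omega

open Classical in
/-- The universal question: `w` codes a program number `i`, an input and a time bound. -/
noncomputable def K (O : Lang) (w : List Bool) : Bool :=
  decide (∃ y : List Bool, y.length ≤ (toList (dec w).cdr.cdr).length ∧
    accB O (prog (toList (dec w).car).length) (toBits (dec w).cdr.car) y
      (toList (dec w).cdr.cdr).length = true)

theorem car_size (d : D) : d.car.size ≤ d.size := by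
  cases d with
  | nil => exact le_rfl
  | cons a b => show a.size ≤ a.size + b.size + 1; omega

theorem cdr_size (d : D) : d.cdr.size ≤ d.size := by
  cases d with
  | nil => exact le_rfl
  | cons a b => show b.size ≤ a.size + b.size + 1; omega

theorem toList_len (d : D) : (toList d).length ≤ d.size := by
  have h1 : (toD (toList d)) = d := toD_toList d
  have h2 := length_le_sz (toList d)
  unfold sz at h2
  rwa [h1] at h2

theorem toBits_len (d : D) : (toBits d).length ≤ d.size := by
  unfold toBits
  rw [List.length_map]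
  exact toList_len d

theorem K_congr {O O' : Lang} {w : List Bool}
    (h : ∀ q : List Bool, q.length < 8 * w.length + 8 → O q = O' q) : K O w = K O' w := by
  have hs := size_dec_le w
  have h1 := toList_len (dec w).cdr.cdr
  have h2 := toBits_len (dec w).cdr.car
  have h3 := cdr_size (dec w)
  have h4 := cdr_size (dec w).cdr
  have h5 := car_size (dec w).cdr
  have key : ∀ y : List Bool, y.length ≤ (toList (dec w).cdr.cdr).length →
      accB O (prog (toList (dec w).car).length) (toBits (dec w).cdr.car) y
        (toList (dec w).cdr.cdr).length =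
      accB O' (prog (toList (dec w).car).length) (toBits (dec w).cdr.car) y
        (toList (dec w).cdr.cdr).length := by
    intro y hy
    refine mach_accB_congr O O' _ _ y _ (3 * w.length + 1) (8 * w.length + 8) ?_ ?_ ?_ h
    · omega
    · omega
    · omega
  unfold K
  congr 1
  apply propext
  constructor
  · rintro ⟨y, hy, hy2⟩
    exact ⟨y, hy, by rw [← key y hy]; exact hy2⟩
  · rintro ⟨y, hy, hy2⟩
    exact ⟨y, hy, by rw [key y hy]; exact hy2⟩

/-- the code of a question about the `i`-th `NP` language -/
def kg (i : ℕ) (x : List Bool) : List Bool :=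
  (D.cons (tg i) (.cons (toD x) (tg ((x.length + 2) ^ ex i)))).enc

theorem K_kg (O : Lang) (i : ℕ) (x : List Bool) : K O (kg i x) = NL i O x := by
  have e : dec (kg i x) = D.cons (tg i) (.cons (toD x) (tg ((x.length + 2) ^ ex i))) := dec_enc _
  unfold K NL
  rw [decide_eq_decide, e]
  have h1 : (D.cons (tg i) (.cons (toD x) (tg ((x.length + 2) ^ ex i)))).car = tg i := rfl
  have h2 : (D.cons (tg i) (.cons (toD x) (tg ((x.length + 2) ^ ex i)))).cdr.car = toD x := rfl
  have h3 : (D.cons (tg i) (.cons (toD x) (tg ((x.length + 2) ^ ex i)))).cdr.cdr =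
    tg ((x.length + 2) ^ ex i) := rfl
  rw [h1, h2, h3, toBits_toD, toList_tg, toList_tg]

theorem pw_false (v : List Bool) : pw (false :: v) = [] := by
  have h : dec (false :: v) = D.nil := rfl
  unfold pw
  rw [h]
  rfl

/-- The invariant: `O` contains `X`; passwords confirmed by `O` lie in the left cut of `ρ`; the
initial segments of `ρ` of length `2 ^ k` are confirmed, and with them universal questions are
answered. -/
structure Inv (X O : Lang) (ρ : ℕ → Bool) : Prop where
  i0 : ∀ v, O (false :: v) = X v
  i1 : ∀ u, O (qA u) = true → leI u ρ = true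
  i2 : ∀ k, O (qA (pre ρ (2 ^ k))) = true
  i3 : ∀ k w, 8 * w.length + 8 ≤ 2 ^ k → O (qB (pre ρ (2 ^ k)) w) = K O w

/-- local operators have fixed points -/
theorem exists_fix (F : Lang → Lang)
    (h : ∀ O O' q, (∀ w : List Bool, w.length < q.length → O w = O' w) → F O q = F O' q) :
    ∃ O : Lang, ∀ q, O q = F O q := by
  set G : ℕ → Lang := fun n => F^[n] (fun _ => false) with hG
  have hs : ∀ n, G (n + 1) = F (G n) := fun n => by
    simp only [hG]
    rw [Function.iterate_succ_apply']
  have key : ∀ l : ℕ, ∀ m n : ℕ, l < m → l < n → ∀ q : List Bool, q.length ≤ l →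
      G m q = G n q := by
    intro l
    induction l with
    | zero =>
      intro m n hm hn q hq
      obtain ⟨m, rfl⟩ := Nat.exists_eq_succ_of_ne_zero (by omega : m ≠ 0)
      obtain ⟨n, rfl⟩ := Nat.exists_eq_succ_of_ne_zero (by omega : n ≠ 0)
      rw [Nat.succ_eq_add_one, Nat.succ_eq_add_one, hs, hs]
      apply h
      intro w hw
      omega
    | succ l ih =>
      intro m n hm hn q hq
      obtain ⟨m, rfl⟩ := Nat.exists_eq_succ_of_ne_zero (by omega : m ≠ 0)
      obtain ⟨n, rfl⟩ := Nat.exists_eq_succ_of_ne_zero (by omega : n ≠ 0)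
      rw [Nat.succ_eq_add_one, Nat.succ_eq_add_one, hs, hs]
      apply h
      intro w hw
      exact ih m n (by omega) (by omega) w (by omega)
  refine ⟨fun q => G (q.length + 1) q, fun q => ?_⟩
  show G (q.length + 1) q = _
  rw [hs]
  apply h
  intro w hw
  exact key w.length _ _ (by omega) (by omega) w le_rfl

open Classical in
/-- Building an oracle: the strings whose passwords are in `E` are redefined. -/
theorem build (O : Lang) (ρ : ℕ → Bool) (E : List Bool → Prop) : ∃ O' : Lang,
    (∀ q, ¬ E (pw q) → O' q = O q) ∧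
    (∀ u, E u → (O' (qA u) = true ↔ ∃ k, u = pre ρ (2 ^ k))) ∧
    (∀ k w, E (pre ρ (2 ^ k)) → 8 * w.length + 8 ≤ 2 ^ k →
      O' (qB (pre ρ (2 ^ k)) w) = K O' w) := by
  obtain ⟨O', hO'⟩ := exists_fix (fun O' q => if E (pw q) then
      (if isA q = true then decide (∃ k, pw q = pre ρ (2 ^ k)) else
        decide (8 * (qw q).length + 8 ≤ (pw q).length) && K O' (qw q)) else O q) (by
    intro O1 O2 q hq
    by_cases h1 : E (pw q)
    · simp only [h1, if_true]
      by_cases h2 : isA q = true
      · simp [h2]
      · simp only [h2]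
        by_cases h3 : 8 * (qw q).length + 8 ≤ (pw q).length
        · have : K O1 (qw q) = K O2 (qw q) := by
            apply K_congr
            intro w hw
            apply hq
            have := pw_le q
            omega
          rw [this]
        · simp [h3]
    · simp [h1])
  refine ⟨O', ?_, ?_, ?_⟩
  · intro q hq
    rw [hO' q, if_neg hq]
  · intro u hu
    rw [hO' (qA u)]
    simp only [pw_qA, hu, if_true, isA_qA, decide_eq_true_eq]
  · intro k w hE hk
    rw [hO' (qB (pre ρ (2 ^ k)) w)]
    simp only [pw_qB, hE, if_true, isA_qB, qw_qB, pre_length]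
    simp [hk]

/-- the start -/
theorem exists_inv (X : Lang) (ρ : ℕ → Bool) : ∃ O : Lang, Inv X O ρ := by
  obtain ⟨O, h1, h2, h3⟩ := build (fun q => X q.tail) ρ (fun u => u ≠ [])
  have hne : ∀ k, pre ρ (2 ^ k) ≠ [] := by
    intro k h
    have h4 := congrArg List.length h
    have h5 : 0 < 2 ^ k := by positivity
    rw [pre_length, List.length_nil] at h4
    omega
  refine ⟨O, fun v => ?_, fun u hu => ?_, fun k => ?_, fun k w hk => ?_⟩
  · exact h1 _ (by rw [pw_false]; simp)
  · by_cases hu0 : u = []
    · rw [hu0]
      rfl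
    · obtain ⟨k, rfl⟩ := (h2 u hu0).1 hu
      exact leI_pre ρ _
  · exact (h2 _ (hne k)).2 ⟨k, rfl⟩
  · exact h3 k w (hne k) hk

/-- the strings that may change when the block `κ` is changed to that of `ρ` -/
def Chg (ρ : ℕ → Bool) (κ : ℕ) (q : List Bool) : Prop := pre ρ (2 ^ (κ + 1)) <+: pw q

theorem chg_len {ρ : ℕ → Bool} {κ : ℕ} {q : List Bool} (h : Chg ρ κ q) :
    2 ^ (κ + 1) ≤ q.length := by
  have h1 := h.length_le
  rw [pre_length] at h1
  exact h1.trans (pw_le q)

/-- The update: the sequence is increased in block `κ`. -/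
theorem update {X O : Lang} {ρ ρ' : ℕ → Bool} (hI : Inv X O ρ) {κ a : ℕ} (ha : 2 ^ κ ≤ a)
    (hag : ∀ m < a, ρ' m = ρ m) (h0 : ρ a = false) (h1 : ρ' a = true) :
    ∃ O' : Lang, Inv X O' ρ' ∧ ∀ q, ¬ Chg ρ' κ q → O' q = O q := by
  obtain ⟨O', g1, g2, g3⟩ := build O ρ' (fun u => pre ρ' (2 ^ (κ + 1)) <+: u)
  have hlow : ∀ q : List Bool, q.length < 2 ^ (κ + 1) → O' q = O q := by
    intro q hq
    apply g1
    intro h
    have := chg_len (ρ := ρ') (κ := κ) (q := q) h
    omega
  have hpre : ∀ k ≤ κ, pre ρ' (2 ^ k) = pre ρ (2 ^ k) := by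
    intro k hk
    apply pre_congr
    intro m hm
    apply hag
    have : 2 ^ k ≤ 2 ^ κ := Nat.pow_le_pow_right (by norm_num) hk
    omega
  have hE : ∀ k ≤ κ, ¬ (pre ρ' (2 ^ (κ + 1)) <+: pre ρ' (2 ^ k)) := by
    intro k hk h
    have := h.length_le
    rw [pre_length, pre_length] at this
    have h2 : 2 ^ k < 2 ^ (κ + 1) := Nat.pow_lt_pow_right (by norm_num) (by omega)
    omega
  have hE' : ∀ k, κ < k → pre ρ' (2 ^ (κ + 1)) <+: pre ρ' (2 ^ k) := by
    intro k hk
    exact pre_prefix ρ' (Nat.pow_le_pow_right (by norm_num) (by omega))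
  refine ⟨O', ⟨fun v => ?_, fun u hu => ?_, fun k => ?_, fun k w hk => ?_⟩,
    fun q hq => g1 q hq⟩
  · rw [g1 _ ?_, hI.i0 v]
    rw [pw_false]
    intro h
    have h2 := h.length_le
    have h3 : 0 < 2 ^ (κ + 1) := by positivity
    rw [pre_length, List.length_nil] at h2
    omega
  · by_cases hu' : pre ρ' (2 ^ (κ + 1)) <+: u
    · obtain ⟨k, rfl⟩ := (g2 u hu').1 hu
      exact leI_pre ρ' _
    · rw [g1 (qA u) (by rw [pw_qA]; exact hu')] at hu
      exact leI_mono hag h0 h1 (hI.i1 u hu)
  · by_cases hk : k ≤ κ
    · rw [g1 _ (by rw [pw_qA]; exact hE k hk), hpre k hk]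
      exact hI.i2 k
    · exact (g2 _ (hE' k (by omega))).2 ⟨k, rfl⟩
  · by_cases hk' : k ≤ κ
    · rw [g1 _ (by rw [pw_qB]; exact hE k hk'), hpre k hk', hI.i3 k w hk]
      apply K_congr
      intro q hq
      refine (hlow q ?_).symm
      have h2 : 2 ^ k < 2 ^ (κ + 1) := Nat.pow_lt_pow_right (by norm_num) (by omega)
      omega
    · exact g3 k w (hE' k (by omega)) hk

end Pool.Agent.PSL
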