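import Pool.Agent.Lib_helper61.PSL.Gen

/-!
# The collapse of the polynomial hierarchy if a left cut is complete
-/

set_option autoImplicit false

namespace Pool.Agent.PSL

open Pool.Agent.CK Pool.Agent.CKP

variable {O : Lang}

/-- The levels `Σ_k` of the polynomial hierarchy relative to `O`. -/
def SigmaP (O : Lang) : ℕ → Lang → Prop
  | 0, A => InP O A
  | k + 1, A => ∃ B : Lang, SigmaP O k B ∧ InNP (join O B) A

theorem le_pre {z : List Bool} {ρ : ℕ → Bool} {m : ℕ} (h : z.length ≤ m) :
    le z (pre ρ m) = leI z ρ := by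
  rw [Bool.eq_iff_iff]
  exact ⟨fun hz => le_leI hz (leI_pre ρ m), fun hz => leI_le h hz⟩

/-- the oracle for the left cut below `u` -/
def cOQ (O : Lang) (u : List Bool) : Lang := join O fun z => le z u

/-- the second oracle, computed from `u` -/
def cBQ (O : Lang) (c : Cmd) (k : ℕ) (u : List Bool) : Lang := fun q =>
  accB (cOQ O u) c q [] ((q.length + 2) ^ k)

/-- the verifier -/
def cV (O : Lang) (c : Cmd) (k : ℕ) (d : Cmd) (l : ℕ) (p : List Bool × List Bool) : Bool :=
  decide (p.2.length ≤ ((toBits (dec p.1).car).length + 2) ^ l) &&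
    accB (join O (cBQ O c k (toBits (dec p.1).cdr))) d (toBits (dec p.1).car) p.2
      (((toBits (dec p.1).car).length + 2) ^ l)

theorem ptime_cBQ {γ : Type} [ToD γ] (c : Cmd) (k : ℕ) {u : γ → List Bool} (hu : PTime O u) :
    PTime O (fun p : γ × List Bool => cBQ O c k (u p.1) p.2) := by
  unfold cBQ cOQ
  have h1 : PTime O (fun q : (γ × List Bool) × List Bool => le q.2 (u q.1.1)) :=
    ptime_le PTime.id.snd (hu.comp PTime.id.fst.fst)
  have h2 := ptime_join (O := O) (B := fun (p : γ × List Bool) (z : List Bool) => le z (u p.1)) h1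
  exact ptime_accB (P := fun p : γ × List Bool => join O fun z => le z (u p.1)) h2 c
    PTime.id.snd (PTime.const []) ((UPoly.tb k).comp PTime.id.snd)

theorem ptime_cV (c : Cmd) (k : ℕ) (d : Cmd) (l : ℕ) : PTime O (cV O c k d l) := by
  unfold cV
  have hx : PTime O (fun p : List Bool × List Bool => toBits (dec p.1).car) :=
    PTime.id.fst.dec.car.toBits
  have hu : PTime O (fun p : List Bool × List Bool => toBits (dec p.1).cdr) :=
    PTime.id.fst.dec.cdr.toBits
  have hT : PTime O (fun p : List Bool × List Bool =>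
      List.replicate (((toBits (dec p.1).car).length + 2) ^ l) ()) := (UPoly.tb l).comp hx
  have hTn : PTime O (fun p : List Bool × List Bool =>
      ((toBits (dec p.1).car).length + 2) ^ l) :=
    (PTime.length hT).of_eq fun p => List.length_replicate
  refine (PTime.nat_le (PTime.length PTime.id.snd) hTn).and ?_
  exact ptime_accB (P := fun p : List Bool × List Bool =>
    join O (cBQ O c k (toBits (dec p.1).cdr)))
    (ptime_join (B := fun p : List Bool × List Bool => cBQ O c k (toBits (dec p.1).cdr))
      (ptime_cBQ c k hu)) d hx PTime.id.snd hT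

/-- One step: if `LC ρ` is complete for `NP^O` then `NP` relative to `P^(O ⊕ LC ρ)` is contained
in `P^(O ⊕ LC ρ)`. -/
theorem coll_step {ρ : ℕ → Bool} (hC : TuringComplete O (LC ρ)) {B A : Lang}
    (hB : InP (join O (LC ρ)) B) (hA : InNP (join O B) A) : InP (join O (LC ρ)) A := by
  classical
  obtain ⟨b, hb⟩ := exists_PL hB
  obtain ⟨i, hi⟩ := exists_NL hA
  set A' : Lang := fun w => decide (∃ y, cV O (prog b) (ex b) (prog i) (ex i) (w, y) = true)
    with hA'
  have hA'NP : InNP O A' := by
    refine inNP_of (V := cV O (prog b) (ex b) (prog i) (ex i)) (ptime_cV _ _ _ _)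
      (B := fun n => (3 * n + 3) ^ ex i)
      ((((UPoly.const 3).mul UPoly.id).add (UPoly.const 3)).pow (ex i)) ?_ ?_
    · intro w hw
      simp only [hA', decide_eq_true_eq] at hw
      obtain ⟨y, hy⟩ := hw
      refine ⟨y, ?_, hy⟩
      unfold cV at hy
      rw [Bool.and_eq_true, decide_eq_true_eq] at hy
      refine hy.1.trans (Nat.pow_le_pow_left ?_ _)
      have h1 := toBits_len (dec w).car
      have h2 := car_size (dec w)
      have h3 := size_dec_le w
      show (toBits (dec w).car).length + 2 ≤ 3 * w.length + 3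
      omega
    · intro w y hy
      simp only [hA', decide_eq_true_eq]
      exact ⟨y, hy⟩
  have hL : PTime (join O (LC ρ)) (LC ρ) :=
    (PTime.askR (O := O) (B := LC ρ) (PTime.id (α := List Bool)))
  set l : ℕ → ℕ := fun n => n + (n + 2) ^ ex i + (n + 2) ^ ex i with hl
  set M : ℕ → ℕ := fun n => l n + (l n + 2) ^ ex b with hM
  have hlP : UPoly (join O (LC ρ)) l := ((UPoly.id).add (UPoly.tb (ex i))).add (UPoly.tb (ex i))
  have hMP : UPoly (join O (LC ρ)) M := hlP.add ((hlP.add (UPoly.const 2)).pow (ex b))
  have hs : PTime (join O (LC ρ)) (fun x : List Bool =>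
      srch (LC ρ) (List.replicate (M x.length) ())) :=
    ptime_srch hL (hMP.comp PTime.id)
  have hcode : PTime (join O (LC ρ)) (fun x : List Bool =>
      (D.cons (toD x) (toD (srch (LC ρ) (List.replicate (M x.length) ())))).enc) :=
    PTime.enc ((PTime.id (α := List Bool)).code.consD hs.code)
  have hfin := (ptime_of_inP (hC.2 A' hA'NP)).comp hcode
  refine inP_of (hfin.of_eq fun x => ?_)
  rw [srch_eq (L := LC ρ) (ρ := ρ) (fun _ => rfl), List.length_replicate]
  set u := pre ρ (M x.length) with hu
  set w := (D.cons (toD x) (toD u)).enc with hw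
  have hdec : dec w = D.cons (toD x) (toD u) := by rw [hw, dec_enc]
  have hx1 : toBits (dec w).car = x := by rw [hdec]; exact toBits_toD x
  have hu1 : toBits (dec w).cdr = u := by rw [hdec]; exact toBits_toD u
  -- the answers agree
  have hlen : ∀ q : List Bool, q.length ≤ l x.length →
      cBQ O (prog b) (ex b) u q = B q := by
    intro q hq
    rw [← hb]
    unfold cBQ PL
    refine mach_accB_congr _ _ _ _ _ _ q.length (q.length + (q.length + 2) ^ ex b) le_rfl
      (Nat.zero_le _) le_rfl ?_
    intro v hv
    unfold cOQ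
    match v with
    | [] => rfl
    | false :: v => rfl
    | true :: v =>
      show le v u = leI v ρ
      rw [hu]
      apply le_pre
      simp only [List.length_cons] at hv
      have h1 : (q.length + 2) ^ ex b ≤ (l x.length + 2) ^ ex b :=
        Nat.pow_le_pow_left (by omega) _
      show v.length ≤ l x.length + (l x.length + 2) ^ ex b
      omega
  have key : ∀ y : List Bool, y.length ≤ (x.length + 2) ^ ex i →
      accB (join O (cBQ O (prog b) (ex b) u)) (prog i) x y ((x.length + 2) ^ ex i) =
      accB (join O B) (prog i) x y ((x.length + 2) ^ ex i) := by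
    intro y hy
    refine mach_accB_congr _ _ _ _ _ _ (x.length + (x.length + 2) ^ ex i) (l x.length) (by omega)
      (by omega) le_rfl ?_
    intro v hv
    match v with
    | [] => rfl
    | false :: v => rfl
    | true :: v =>
      simp only [List.length_cons] at hv
      exact hlen v (by omega)
  rw [← hi]
  show A' w = NL i (join O B) x
  rw [hA']
  unfold NL
  simp only
  rw [decide_eq_decide]
  constructor
  · rintro ⟨y, hy⟩
    unfold cV at hy
    simp only [hx1, hu1] at hy
    rw [Bool.and_eq_true, decide_eq_true_eq] at hy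
    exact ⟨y, hy.1, by rw [← key y hy.1]; exact hy.2⟩
  · rintro ⟨y, hy1, hy2⟩
    refine ⟨y, ?_⟩
    unfold cV
    simp only [hx1, hu1]
    rw [Bool.and_eq_true, decide_eq_true_eq]
    exact ⟨hy1, by rw [key y hy1]; exact hy2⟩

/-- If a left cut is `≤_T^P`-complete for `NP^O` then the whole polynomial hierarchy relative to
`O` is contained in `P^(O ⊕ LC ρ)`. -/
theorem collapse {ρ : ℕ → Bool} (hC : TuringComplete O (LC ρ)) :
    ∀ (k : ℕ) (A : Lang), SigmaP O k A → TuringReducible O A (LC ρ)
  | 0, _, hA => inP_of (ptime_of_inP hA).lift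
  | k + 1, _, ⟨_, hB, hA⟩ => coll_step hC (collapse hC k _ hB) hA

end Pool.Agent.PSL
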