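import Pool.Agent.Lib_helper61.PSL.Build

/-!
# Diagonalization by increasing the secret sequence
-/

set_option autoImplicit false

namespace Pool.Agent.PSL

open Pool.Agent.CK Pool.Agent.CKP

/-- the sequence is `0` from `m` on -/
def Z (ρ : ℕ → Bool) (m : ℕ) : Prop := ∀ n, m ≤ n → ρ n = false

/-- `ρ` with the value `v` in block `κ` (the positions in `[2 ^ κ, 2 ^ (κ + 1))`) and `0` beyond -/
def blk (ρ : ℕ → Bool) (κ v : ℕ) : ℕ → Bool := fun n =>
  if n < 2 ^ κ then ρ n else if n < 2 ^ (κ + 1) then v.testBit (2 ^ (κ + 1) - 1 - n) else false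

theorem blk_low {ρ : ℕ → Bool} {κ v n : ℕ} (h : n < 2 ^ κ) : blk ρ κ v n = ρ n := by
  simp [blk, h]

theorem blk_mid {ρ : ℕ → Bool} {κ v n : ℕ} (h : 2 ^ κ ≤ n) (h' : n < 2 ^ (κ + 1)) :
    blk ρ κ v n = v.testBit (2 ^ (κ + 1) - 1 - n) := by
  simp [blk, not_lt.2 h, h']

theorem blk_zero {ρ : ℕ → Bool} {κ : ℕ} (h : Z ρ (2 ^ κ)) : blk ρ κ 0 = ρ := by
  funext n
  unfold blk
  split_ifs with h1 h2
  · rfl
  · rw [Nat.zero_testBit, h n (by omega)]
  · rw [h n (by omega)]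

theorem blk_Z (ρ : ℕ → Bool) (κ v : ℕ) : Z (blk ρ κ v) (2 ^ (κ + 1)) := by
  intro n hn
  have : 2 ^ κ ≤ 2 ^ (κ + 1) := Nat.pow_le_pow_right (by norm_num) (by omega)
  unfold blk
  rw [if_neg (by omega), if_neg (by omega)]

theorem blk_last (ρ : ℕ → Bool) (κ v : ℕ) : blk ρ κ v (2 ^ (κ + 1) - 1) = v.testBit 0 := by
  have h1 : 2 ^ (κ + 1) = 2 ^ κ + 2 ^ κ := by ring
  have h2 : 0 < 2 ^ κ := by positivity
  rw [blk_mid (by omega) (by omega), Nat.sub_self]

theorem exists_bit {v w : ℕ} (h : v < w) :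
    ∃ i, v.testBit i = false ∧ w.testBit i = true ∧ ∀ j, i < j → v.testBit j = w.testBit j := by
  classical
  have hne : ∃ i, v.testBit i ≠ w.testBit i := by
    by_contra hc
    push Not at hc
    exact absurd (Nat.eq_of_testBit_eq hc) (by omega)
  have hb : ∀ i, v.testBit i ≠ w.testBit i → i ≤ w := by
    intro i hi
    by_contra hc
    have h1 : w < 2 ^ i := by
      have : i < 2 ^ i := Nat.lt_two_pow_self
      omega
    rw [Nat.testBit_lt_two_pow h1, Nat.testBit_lt_two_pow (lt_trans h h1)] at hi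
    exact hi rfl
  set i := Nat.findGreatest (fun i => v.testBit i ≠ w.testBit i) w with hi
  obtain ⟨i0, hi0⟩ := hne
  have h1 : v.testBit i ≠ w.testBit i := Nat.findGreatest_spec (P := fun i =>
    v.testBit i ≠ w.testBit i) (hb i0 hi0) hi0
  have h2 : ∀ j, i < j → v.testBit j = w.testBit j := by
    intro j hj
    by_contra hc
    exact absurd (Nat.le_findGreatest (P := fun i => v.testBit i ≠ w.testBit i) (hb j hc) hc)
      (by omega)
  refine ⟨i, ?_, ?_, h2⟩
  · by_contra hc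
    have hv : v.testBit i = true := by simpa using hc
    have hw : w.testBit i = false := by
      cases hh : w.testBit i
      · rfl
      · rw [hv, hh] at h1
        exact absurd rfl h1
    have := Nat.lt_of_testBit i hw hv (fun j hj => (h2 j hj).symm)
    omega
  · by_contra hc
    have hw : w.testBit i = false := by simpa using hc
    have hv : v.testBit i = true := by
      cases hh : v.testBit i
      · rw [hw, hh] at h1
        exact absurd rfl h1
      · rfl
    have := Nat.lt_of_testBit i hw hv (fun j hj => (h2 j hj).symm)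
    omega

theorem blk_lt {ρ : ℕ → Bool} {κ v w : ℕ} (h : v < w) (hw : w < 2 ^ (2 ^ κ)) :
    ∃ a, 2 ^ κ ≤ a ∧ a < 2 ^ (κ + 1) ∧ (∀ m < a, blk ρ κ w m = blk ρ κ v m) ∧
      blk ρ κ v a = false ∧ blk ρ κ w a = true := by
  obtain ⟨i, h1, h2, h3⟩ := exists_bit h
  have hi : i < 2 ^ κ := by
    by_contra hc
    have : w < 2 ^ i := lt_of_lt_of_le hw (Nat.pow_le_pow_right (by norm_num) (by omega))
    rw [Nat.testBit_lt_two_pow this] at h2
    exact absurd h2 (by simp)
  have e : 2 ^ (κ + 1) = 2 ^ κ + 2 ^ κ := by ring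
  refine ⟨2 ^ (κ + 1) - 1 - i, by omega, by omega, fun m hm => ?_, ?_, ?_⟩
  · by_cases hm' : m < 2 ^ κ
    · rw [blk_low hm', blk_low hm']
    · rw [blk_mid (by omega) (by omega), blk_mid (by omega) (by omega)]
      exact (h3 _ (by omega)).symm
  · rw [blk_mid (by omega) (by omega)]
    have : 2 ^ (κ + 1) - 1 - (2 ^ (κ + 1) - 1 - i) = i := by omega
    rw [this, h1]
  · rw [blk_mid (by omega) (by omega)]
    have : 2 ^ (κ + 1) - 1 - (2 ^ (κ + 1) - 1 - i) = i := by omega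
    rw [this, h2]

theorem chg_inj {ρ : ℕ → Bool} {κ v w : ℕ} {q : List Bool} (hv : v < 2 ^ (2 ^ κ))
    (hw : w < 2 ^ (2 ^ κ)) (h1 : Chg (blk ρ κ v) κ q) (h2 : Chg (blk ρ κ w) κ q) : v = w := by
  have h3 : pre (blk ρ κ v) (2 ^ (κ + 1)) = pre (blk ρ κ w) (2 ^ (κ + 1)) := by
    have e1 := List.prefix_iff_eq_take.1 h1
    have e2 := List.prefix_iff_eq_take.1 h2
    rw [e1, e2, pre_length, pre_length]
  have h4 := pre_inj h3
  by_contra hne
  rcases Nat.lt_or_gt_of_ne hne with h | h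
  · obtain ⟨a, -, ha, -, ha0, ha1⟩ := blk_lt (ρ := ρ) h hw
    have := h4 a ha
    rw [ha0, ha1] at this
    exact absurd this (by simp)
  · obtain ⟨a, -, ha, -, ha0, ha1⟩ := blk_lt (ρ := ρ) h hv
    have := h4 a ha
    rw [ha0, ha1] at this
    exact absurd this (by simp)

/-- a fresh value of the other parity -/
theorem exists_fresh (ρ : ℕ → Bool) {κ v s : ℕ} (S : List (List Bool)) (hS : S.length ≤ s)
    (hv : v + 2 * s + 2 ≤ 2 ^ (2 ^ κ)) :
    ∃ w, v < w ∧ w ≤ v + 2 * s + 1 ∧ w.testBit 0 ≠ v.testBit 0 ∧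
      ∀ q ∈ S, ¬ Chg (blk ρ κ w) κ q := by
  classical
  by_contra hc
  push Not at hc
  have hc' : ∀ i : ℕ, i ∈ Finset.range (s + 1) →
      ∃ q ∈ S, Chg (blk ρ κ (v + 1 + 2 * i)) κ q := by
    intro i hi
    have hi' := Finset.mem_range.1 hi
    apply hc (v + 1 + 2 * i) (by omega) (by omega)
    rw [Nat.testBit_zero, Nat.testBit_zero]
    intro h
    have h1 := decide_eq_decide.1 h
    omega
  choose! g hg1 hg2 using hc'
  have hcard : S.toFinset.card < (Finset.range (s + 1)).card := by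
    rw [Finset.card_range]
    have := S.toFinset_card_le
    omega
  obtain ⟨i, hi, j, hj, hij, he⟩ := Finset.exists_ne_map_eq_of_card_lt_of_maps_to hcard
    (f := g) (fun i hi => by
      simp only [Finset.mem_coe]
      exact List.mem_toFinset.2 (hg1 i hi))
  have hi' := Finset.mem_range.1 hi
  have hj' := Finset.mem_range.1 hj
  have h1 := hg2 i hi
  have h2 := hg2 j hj
  rw [← he] at h2
  have := chg_inj (by omega) (by omega) h1 h2
  omega

/-- The diagonalization in block `κ`. -/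
theorem diag {κ : ℕ} {X O : Lang} {ρ : ℕ → Bool} (hI : Inv X O ρ) (hZ : Z ρ (2 ^ κ)) {Q s : ℕ}
    (room : (Q + 1) * (2 * s + 2) ≤ 2 ^ (2 ^ κ)) (Bad : Lang → Prop) (out : Lang → Bool)
    (pot : Lang → ℕ) (hpot : ∀ O', ¬ Bad O' → pot O' ≤ Q)
    (hstep : ∀ O1, ¬ Bad O1 → ∃ S : List (List Bool), S.length ≤ s ∧
      ∀ O2 : Lang, (∀ q ∈ S, O2 q = O1 q) →
        Bad O2 ∨ (out O2 = out O1 ∧ pot O2 = pot O1) ∨ pot O1 < pot O2) :
    ∃ (O' : Lang) (v : ℕ), v < 2 ^ (2 ^ κ) ∧ Inv X O' (blk ρ κ v) ∧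
      (∀ q : List Bool, q.length < 2 ^ κ → O' q = O q) ∧
      (Bad O' ∨ out O' ≠ blk ρ κ v (2 ^ (κ + 1) - 1)) := by
  by_contra hc
  push Not at hc
  have key : ∀ p ≤ Q + 1, ∃ (O' : Lang) (v : ℕ), v ≤ p * (2 * s + 2) - p ∧ Inv X O' (blk ρ κ v) ∧
      (∀ q : List Bool, q.length < 2 ^ κ → O' q = O q) ∧ p ≤ pot O' := by
    intro p
    induction p with
    | zero =>
      intro _
      refine ⟨O, 0, by omega, ?_, fun q _ => rfl, Nat.zero_le _⟩
      rw [blk_zero hZ]
      exact hI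
    | succ p ih =>
      intro hp
      obtain ⟨O1, v, hv, hI1, hag, hpo⟩ := ih (by omega)
      have hm : (p + 1) * (2 * s + 2) ≤ (Q + 1) * (2 * s + 2) := Nat.mul_le_mul_right _ hp
      have hm' : (p + 1) * (2 * s + 2) = p * (2 * s + 2) + (2 * s + 2) := by ring
      have hm2 : p ≤ p * (2 * s + 2) := Nat.le_mul_of_pos_right _ (by omega)
      obtain ⟨hB, hout⟩ := hc O1 v (by omega) hI1 hag
      obtain ⟨S, hS, hS2⟩ := hstep O1 hB
      obtain ⟨w, hvw, hw, hpar, hfr⟩ := exists_fresh ρ (κ := κ) (v := v) S hS (by omega)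
      have hw2 : w < 2 ^ (2 ^ κ) := by omega
      obtain ⟨a, ha, ha', hag2, ha0, ha1⟩ := blk_lt (ρ := ρ) hvw hw2
      obtain ⟨O2, hI2, hO2⟩ := update hI1 ha hag2 ha0 ha1
      have hag3 : ∀ q : List Bool, q.length < 2 ^ κ → O2 q = O q := by
        intro q hq
        rw [hO2 q ?_, hag q hq]
        intro h
        have := chg_len h
        have e : 2 ^ (κ + 1) = 2 ^ κ + 2 ^ κ := by ring
        omega
      refine ⟨O2, w, by omega, hI2, hag3, ?_⟩
      obtain ⟨hB2, hout2⟩ := hc O2 w hw2 hI2 hag3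
      rcases hS2 O2 (fun q hq => hO2 q (hfr q hq)) with h | h | h
      · exact absurd h hB2
      · exfalso
        apply hpar
        rw [blk_last] at hout hout2
        rw [← hout, ← hout2, h.1]
      · omega
  obtain ⟨O1, v, hv, hI1, hag, hpo⟩ := key (Q + 1) le_rfl
  have hm : Q + 1 ≤ (Q + 1) * (2 * s + 2) := Nat.le_mul_of_pos_right _ (by omega)
  obtain ⟨hB, -⟩ := hc O1 v (by omega) hI1 hag
  have := hpot O1 hB
  omega

/-- The limit of the construction. -/
theorem limit (X : Lang) {ι : Type} [Countable ι] [Nonempty ι] (Met : ι → Lang → (ℕ → Bool) → Prop)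
    (h : ∀ (i : ι) (O : Lang) (ρ : ℕ → Bool) (κ : ℕ), Inv X O ρ → Z ρ (2 ^ κ) →
      ∃ (O' : Lang) (ρ' : ℕ → Bool) (κ' : ℕ), κ < κ' ∧ Inv X O' ρ' ∧ Z ρ' (2 ^ κ') ∧
        (∀ q : List Bool, q.length < 2 ^ κ → O' q = O q) ∧ (∀ n < 2 ^ κ, ρ' n = ρ n) ∧
        ∀ (O'' : Lang) (ρ'' : ℕ → Bool), (∀ q : List Bool, q.length < 2 ^ κ' → O'' q = O' q) →
          (∀ n < 2 ^ κ', ρ'' n = ρ' n) → Met i O'' ρ'') :
    ∃ (O : Lang) (ρ : ℕ → Bool), Inv X O ρ ∧ ∀ i, Met i O ρ := by
  obtain ⟨f, hf⟩ := exists_surjective_nat ι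
  obtain ⟨O0, hO0⟩ := exists_inv X (fun _ => false)
  let St := {s : Lang × (ℕ → Bool) × ℕ // Inv X s.1 s.2.1 ∧ Z s.2.1 (2 ^ s.2.2)}
  have hnext : ∀ (i : ι) (s : St), ∃ s' : St, s.1.2.2 < s'.1.2.2 ∧
      (∀ q : List Bool, q.length < 2 ^ s.1.2.2 → s'.1.1 q = s.1.1 q) ∧
      (∀ n < 2 ^ s.1.2.2, s'.1.2.1 n = s.1.2.1 n) ∧
      ∀ (O'' : Lang) (ρ'' : ℕ → Bool),
        (∀ q : List Bool, q.length < 2 ^ s'.1.2.2 → O'' q = s'.1.1 q) →
          (∀ n < 2 ^ s'.1.2.2, ρ'' n = s'.1.2.1 n) → Met i O'' ρ'' := by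
    intro i s
    obtain ⟨O', ρ', κ', h1, h2, h3, h4, h5, h6⟩ := h i s.1.1 s.1.2.1 s.1.2.2 s.2.1 s.2.2
    exact ⟨⟨(O', ρ', κ'), h2, h3⟩, h1, h4, h5, h6⟩
  choose nx n1 n2 n3 n4 using hnext
  let s0 : St := ⟨(O0, (fun _ => false), 0), hO0, fun n _ => rfl⟩
  let st : ℕ → St := fun t => Nat.rec s0 (fun t s => nx (f t) s) t
  have hst : ∀ t, st (t + 1) = nx (f t) (st t) := fun t => rfl
  have hκ : ∀ t, t ≤ (st t).1.2.2 := by
    intro t
    induction t with
    | zero => exact Nat.zero_le _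
    | succ t ih =>
      rw [hst]
      have := n1 (f t) (st t)
      omega
  have hmono : ∀ t d, (st t).1.2.2 ≤ (st (t + d)).1.2.2 := by
    intro t d
    induction d with
    | zero => exact le_rfl
    | succ d ih =>
      rw [← Nat.add_assoc, hst]
      have := n1 (f (t + d)) (st (t + d))
      omega
  have hagO : ∀ t d, ∀ q : List Bool, q.length < 2 ^ (st t).1.2.2 →
      (st (t + d)).1.1 q = (st t).1.1 q := by
    intro t d
    induction d with
    | zero => intro q _; rfl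
    | succ d ih =>
      intro q hq
      rw [← Nat.add_assoc, hst, n2, ih q hq]
      exact lt_of_lt_of_le hq (Nat.pow_le_pow_right (by norm_num) (hmono t d))
  have hagρ : ∀ t d, ∀ n < 2 ^ (st t).1.2.2, (st (t + d)).1.2.1 n = (st t).1.2.1 n := by
    intro t d
    induction d with
    | zero => intro q _; rfl
    | succ d ih =>
      intro n hn
      rw [← Nat.add_assoc, hst, n3, ih n hn]
      exact lt_of_lt_of_le hn (Nat.pow_le_pow_right (by norm_num) (hmono t d))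
  have hlt : ∀ n, n < 2 ^ (st n).1.2.2 := fun n =>
    lt_of_lt_of_le Nat.lt_two_pow_self (Nat.pow_le_pow_right (by norm_num) (hκ n))
  set O : Lang := fun q => (st q.length).1.1 q with hO
  set ρ : ℕ → Bool := fun n => (st n).1.2.1 n with hρ
  have hOt : ∀ t, ∀ q : List Bool, q.length < 2 ^ (st t).1.2.2 → O q = (st t).1.1 q := by
    intro t q hq
    rcases Nat.le_total t q.length with h' | h'
    · obtain ⟨d, hd⟩ := Nat.exists_eq_add_of_le h'
      show (st q.length).1.1 q = _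
      rw [hd]
      exact hagO t d q hq
    · obtain ⟨d, hd⟩ := Nat.exists_eq_add_of_le h'
      show (st q.length).1.1 q = _
      rw [hd]
      exact (hagO q.length d q (hlt _)).symm
  have hρt : ∀ t, ∀ n < 2 ^ (st t).1.2.2, ρ n = (st t).1.2.1 n := by
    intro t n hn
    rcases Nat.le_total t n with h' | h'
    · obtain ⟨d, rfl⟩ := Nat.exists_eq_add_of_le h'
      exact hagρ t d (t + d) hn
    · obtain ⟨d, rfl⟩ := Nat.exists_eq_add_of_le h'
      exact (hagρ n d n (hlt _)).symm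
  refine ⟨O, ρ, ⟨fun v => ?_, fun u hu => ?_, fun k => ?_, fun k w hk => ?_⟩, fun i => ?_⟩
  · rw [hOt (false :: v).length _ (hlt _)]
    exact (st (false :: v).length).2.1.i0 v
  · set t := (qA u).length with ht
    have h1 := hlt t
    have h2 := lt_len_qA u
    rw [hOt t _ h1] at hu
    have h3 := (st t).2.1.i1 u hu
    rw [← h3]
    apply leI_congr
    intro m hm
    exact hρt t m (by omega)
  · set t := (qA (pre ρ (2 ^ k))).length with ht
    have h1 := hlt t
    have h2 := lt_len_qA (pre ρ (2 ^ k))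
    rw [pre_length] at h2
    have h3 : pre ρ (2 ^ k) = pre (st t).1.2.1 (2 ^ k) :=
      pre_congr fun m hm => hρt t m (by omega)
    rw [hOt t _ h1, h3]
    exact (st t).2.1.i2 k
  · set t := (qB (pre ρ (2 ^ k)) w).length with ht
    have h1 := hlt t
    have h2 := lt_len_qB (pre ρ (2 ^ k)) w
    rw [pre_length] at h2
    have h3 : pre ρ (2 ^ k) = pre (st t).1.2.1 (2 ^ k) :=
      pre_congr fun m hm => hρt t m (by omega)
    have h4 : K O w = K (st t).1.1 w := K_congr fun q hq => hOt t q (by omega)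
    rw [hOt t _ h1, h3, h4]
    exact (st t).2.1.i3 k w hk
  · obtain ⟨t, rfl⟩ := hf i
    refine n4 (f t) (st t) O ρ (fun q hq => ?_) (fun n hn => ?_)
    · exact hOt (t + 1) q hq
    · exact hρt (t + 1) n hn

end Pool.Agent.PSL
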