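import Pool.Agent.Lib_helper61.PSL.PT

/-!
# Universal simulation with an oracle that depends on the data
-/

set_option autoImplicit false
set_option linter.unusedSectionVars false

namespace Pool.Agent.PSL

open Pool.Agent.CK Pool.Agent.CKP

variable {O : Lang} {γ : Type} [ToD γ]

theorem ptime_stepG {P : γ → Lang} (hP : PTime O (fun p : γ × List Bool => P p.1 p.2)) :
    PTime O (fun p : γ × (List D × List (List Bool)) => stepU (P p.1) p.2) := by
  unfold stepU
  refine PTime.lcase (l := fun p : γ × (List D × List (List Bool)) => p.2.1) (n := fun p => p.2)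
    (c := fun p c K => stepC (P p.1) c K p.2.2) PTime.id.snd.fst PTime.id.snd ?_
  have hg0 : PTime O (fun p : (γ × (List D × List (List Bool))) × D × List D => p.1.1) :=
    PTime.id.fst.fst
  have hS : PTime O (fun p : (γ × (List D × List (List Bool))) × D × List D => p.1.2.2) :=
    PTime.id.fst.snd.snd
  have hc : PTime O (fun p : (γ × (List D × List (List Bool))) × D × List D => p.2.1) :=
    PTime.id.snd.fst
  have hK : PTime O (fun p : (γ × (List D × List (List Bool))) × D × List D => p.2.2) :=
    PTime.id.snd.snd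
  have hr : PTime O (fun p : (γ × (List D × List (List Bool))) × D × List D => regU p.2.1) :=
    hc.cdr.car.toList
  have hg := PTime.getU hS hr
  unfold stepC
  refine PTime.ite (hc.tagIs 1) (hK.pair (PTime.setU hS hr (PTime.cons hc.cdr.cdr.toBool hg))) ?_
  refine PTime.ite (hc.tagIs 2) (hK.pair (PTime.setU hS hr (PTime.tail hg))) ?_
  refine PTime.ite (hc.tagIs 3) ((hc.cdr.car.cons (hc.cdr.cdr.cons hK)).pair hS) ?_
  refine PTime.ite (hc.tagIs 4) (((PTime.ite (PTime.isNil hg) hc.cdr.cdr.car
    (PTime.ite (PTime.headD hg (PTime.const false)) hc.cdr.cdr.cdr.cdr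
      hc.cdr.cdr.cdr.car)).cons hK).pair hS) ?_
  refine PTime.ite (hc.tagIs 5) (PTime.ite (PTime.isNil hg) (hK.pair hS)
    ((hc.cdr.cdr.cons (hc.cons hK)).pair hS)) ?_
  exact PTime.ite (hc.tagIs 6) (((PTime.ite (hP.comp (hg0.pair hg)) hc.cdr.cdr.cdr
    hc.cdr.cdr.car).cons hK).pair hS) (hK.pair hS)

theorem ptime_runG {P : γ → Lang} (hP : PTime O (fun p : γ × List Bool => P p.1 p.2))
    {c : γ → D} {S : γ → List (List Bool)} {N : γ → List Unit}
    (hc : PTime O c) (hS : PTime O S) (hN : PTime O N) :
    PTime O (fun x => CKP.runU (P x) ([c x], S x) (N x)) := by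
  obtain ⟨Pc, hPc⟩ := hc.size_le
  obtain ⟨PS, hPS⟩ := hS.size_le
  obtain ⟨PN, hPN⟩ := hN.size_le
  unfold CKP.runU
  refine PTime.foldl (l := N) (i := fun x => ([c x], S x)) (s := fun x q _ => stepU (P x) q) hN
    ((PTime.cons hc (PTime.const [])).pair hS)
    ((ptime_stepG hP).comp (PTime.id.fst.pair PTime.id.snd.fst))
    ((1 + PN) * (Pc + 1) + 1 + (PS + PN * (2 * Pc + 8)) + 1) ?_
  intro x l' hl'
  have h1 := runU_bound (O := P x) (sz (c x)) l' ([c x], S x) (by
    intro d hd
    simp only [List.mem_singleton] at hd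
    rw [hd])
  unfold CKP.runU at h1
  obtain ⟨g1, g2, g3⟩ := h1
  generalize l'.foldl (fun q _ => stepU (P x) q) ([c x], S x) = q at g1 g2 g3
  have h2 : l'.length ≤ PN.eval (sz x) :=
    (hl'.length_le.trans (length_le_sz _)).trans (hPN x)
  have h3 := sz_list_le q.1 g1
  have h4 := hPc x
  have h5 := hPS x
  have h6 : q.1.length * (sz (c x) + 1) ≤ (1 + PN.eval (sz x)) * (Pc.eval (sz x) + 1) := by
    apply Nat.mul_le_mul
    · simp only [List.length_singleton] at g2; omega
    · omega
  have h7 : l'.length * (2 * sz (c x) + 8) ≤ PN.eval (sz x) * (2 * Pc.eval (sz x) + 8) := by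
    apply Nat.mul_le_mul h2
    omega
  have h8 : sz q = sz q.1 + sz q.2 + 1 := rfl
  simp only [Polynomial.eval_add, Polynomial.eval_mul, Polynomial.eval_ofNat,
    Polynomial.eval_one]
  simp only at g3
  omega

/-- running a fixed program with an oracle that depends on the data -/
theorem ptime_accB {P : γ → Lang} (hP : PTime O (fun p : γ × List Bool => P p.1 p.2)) (c : Cmd)
    {x y : γ → List Bool} {T : γ → ℕ} (hx : PTime O x) (hy : PTime O y)
    (hT : PTime O (fun a => List.replicate (T a) ())) :
    PTime O (fun a => accB (P a) c (x a) (y a) (T a)) := by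
  have hrun := ptime_runG hP (PTime.const (cmdD c))
    (PTime.cons hx (PTime.cons hy (PTime.const []))) hT
  refine ((PTime.isNil hrun.fst).and (PTime.headD (PTime.headD hrun.snd (PTime.const []))
    (PTime.const false))).of_eq fun a => ?_
  have h := accU_iff (O := P a) c (x a) (y a) (List.replicate (T a) ())
  rw [List.length_replicate, ← enum_accB] at h
  rw [Bool.eq_iff_iff]
  exact h

/-- the joined oracle with a data dependent second part -/
theorem ptime_join {B : γ → Lang} (hB : PTime O (fun p : γ × List Bool => B p.1 p.2)) :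
    PTime O (fun p : γ × List Bool => join O (B p.1) p.2) := by
  have h := PTime.lcase (O := O) (l := fun p : γ × List Bool => p.2) (n := fun _ => false)
    (c := fun p a t => if a = true then B p.1 t else O t) PTime.id.snd (PTime.const false)
    (PTime.ite PTime.id.snd.fst (hB.comp (PTime.id.fst.fst.pair PTime.id.snd.snd))
      (PTime.ask PTime.id.snd.snd))
  refine h.of_eq fun p => ?_
  obtain ⟨g, w⟩ := p
  match w with
  | [] => rfl
  | false :: w => rfl
  | true :: w => rfl

theorem UPoly.comp2 {f g : ℕ → ℕ} (hg : UPoly O g) (hf : UPoly O f) :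
    UPoly O (fun n => g (f n)) :=
  (hg.comp hf).of_eq fun l => by rw [List.length_replicate]

end Pool.Agent.PSL
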