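import Pool.Agent.Lib_helper61.PSL.Coll

/-!
# The main theorem
-/

set_option autoImplicit false

namespace Pool.Agent.PSL

open Pool.Agent.CK Pool.Agent.CKP

/-- `L` is p-selective, with a selector that does not use any oracle. -/
def PSelective (L : Lang) : Prop :=
  ∃ (c : Cmd) (k : ℕ), ∀ x y : List Bool,
    Halts (fun _ => false) c x y ((x.length + y.length + 2) ^ k) ∧
      ∃ z : List Bool, (run (fun _ => false) c x y ((x.length + y.length + 2) ^ k)).2 0 = z ∧
        (z = x ∨ z = y) ∧ ((L x = true ∨ L y = true) → L z = true)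

/-- `B` has at most `2 ^ (n ^ o(1))` elements of length at most `n`. -/
def Thin (B : Lang) : Prop := ∀ m : ℕ, ∀ᶠ n : ℕ in Filter.atTop, census B (n ^ m) ≤ 2 ^ n

/-- `B` has polynomially many elements of length at most `n`. -/
def Sparse (B : Lang) : Prop := ∃ k : ℕ, ∀ n : ℕ, census B n ≤ (n + 2) ^ k

theorem Sparse.thin {B : Lang} (h : Sparse B) : Thin B := by
  obtain ⟨k, hk⟩ := h
  intro m
  filter_upwards [enum_pow ((m + 1) * k), Filter.eventually_ge_atTop 1] with n hn h1
  refine (hk _).trans (le_trans ?_ hn)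
  rw [pow_mul]
  apply Nat.pow_le_pow_left
  have h2 : n ^ m ≤ (n + 2) ^ m := Nat.pow_le_pow_left (by omega) m
  have h3 : 1 ≤ (n + 2) ^ m := Nat.one_le_pow _ _ (by omega)
  have h4 : (n + 2) ^ (m + 1) = (n + 2) ^ m * (n + 2) := pow_succ _ _
  have h5 : (n + 2) ^ m * 3 ≤ (n + 2) ^ m * (n + 2) := Nat.mul_le_mul_left _ (by omega)
  omega

theorem LC_sel (ρ : ℕ → Bool) : PSelective (LC ρ) := by
  have hf : PTime (fun _ => false) (fun p : List Bool × List Bool =>
      if le p.1 p.2 = true then p.1 else p.2) :=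
    PTime.ite (ptime_le PTime.id.fst PTime.id.snd) PTime.id.fst PTime.id.snd
  obtain ⟨c, k, h⟩ := two_inputs hf
  refine ⟨c, k, fun x y => ⟨(h x y).1, _, (h x y).2, ?_, ?_⟩⟩
  · show (if le x y = true then x else y) = x ∨ (if le x y = true then x else y) = y
    split_ifs
    · exact Or.inl rfl
    · exact Or.inr rfl
  · intro hxy
    show LC ρ (if le x y = true then x else y) = true
    split_ifs with hc
    · rcases hxy with hx | hy
      · exact hx
      · exact le_leI hc hy
    · rcases hxy with hx | hy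
      · exact le_leI ((le_total x y).resolve_left hc) hx
      · exact hy

theorem census_mono (B : Lang) {l m : ℕ} (h : l ≤ m) : census B l ≤ census B m :=
  Set.ncard_le_ncard (fun _ hy => ⟨hy.1.trans h, hy.2⟩) (census_finite B m)

theorem DD_ones (ρ : ℕ → Bool) (m n : ℕ) : DD ρ m (ones n) = ρ (ps m n) := by
  simp [DD, ones]

theorem len_ones (n : ℕ) : (ones n).length = n := by simp [ones]

/-- few questions do not suffice -/
theorem not_few {O : Lang} {ρ : ℕ → Bool} (hA : ∀ r, MetA r O ρ) {B : Lang} (hB : InNP O B)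
    (m : ℕ) (c : Cmd) (C : ℕ) : ¬ ∀ x : List Bool,
      numQ O B c x (C * 2 ^ x.length ^ m + C) ≤ x.length ^ m + C ∧
        (Accepts (join O B) c x [] (C * 2 ^ x.length ^ m + C) ↔ DD ρ m x = true) := by
  intro h
  obtain ⟨j, rfl⟩ := exists_NL hB
  obtain ⟨n, hn⟩ := hA (Nat.pair (Encodable.encode c) 0, j, C, m)
  obtain ⟨h1, h2⟩ := h (ones n)
  simp only at hn
  rw [len_ones] at h1 h2
  have e1 : nB (join O (NL j O)) (tr (Nat.pair (Encodable.encode c) 0) n (et C m n)) =
      numQ O (NL j O) c (ones n) (C * 2 ^ n ^ m + C) := by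
    unfold tr numQ
    rw [nB_runTree, enum_prog]
    rfl
  rcases hn with hn | hn
  · rw [e1] at hn
    omega
  · apply hn
    rw [accC_tr, enum_prog, Bool.eq_iff_iff, enum_accB, ← DD_ones ρ m n]
    exact h2

/-- sparse oracles do not suffice -/
theorem not_sparse {O : Lang} {ρ : ℕ → Bool} (hBm : ∀ r, MetB r O ρ) {B : Lang}
    (hB : InNP O B) (hS : Sparse B) (m : ℕ) (c : Cmd) (C : ℕ) : ¬ ∀ x : List Bool,
      Accepts (join O B) c x [] (C * 2 ^ x.length ^ m + C) ↔ DD ρ m x = true := by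
  intro h
  obtain ⟨j, rfl⟩ := exists_NL hB
  obtain ⟨k, hk⟩ := hS
  obtain ⟨n, hn0, hn⟩ := hBm ((Nat.pair (Encodable.encode c) 0, j, C, m), (C + 3) * k)
  simp only at hn0 hn
  rcases hn with hn | hn
  · have h1 := hk (n + et C m n)
    have h2 : (n + et C m n + 2) ^ k ≤ 2 ^ (n + 2) ^ (m + 2) := by
      have g1 := Nat.pow_le_pow_left (num_l n m C) k
      unfold et
      refine g1.trans ?_
      rw [← pow_mul]
      apply Nat.pow_le_pow_right (by norm_num)
      calc (C + 3) * (n + 2) ^ (m + 1) * k = (n + 2) ^ (m + 1) * ((C + 3) * k) := by ring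
        _ ≤ (n + 2) ^ (m + 1) * (n + 2) := Nat.mul_le_mul_left _ (by omega)
        _ = (n + 2) ^ (m + 2) := by ring
    omega
  · apply hn
    have h2 := h (ones n)
    rw [len_ones] at h2
    rw [accC_tr, enum_prog, Bool.eq_iff_iff, enum_accB, ← DD_ones ρ m n]
    exact h2

/-- thin oracles do not suffice -/
theorem not_thin {O : Lang} {ρ : ℕ → Bool} (hCm : ∀ r, MetC r O ρ) {B : Lang} (hB : InNP O B)
    (hT : Thin B) : ¬ InP (join O B) (DD ρ 0) := by
  intro h
  obtain ⟨j, rfl⟩ := exists_NL hB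
  obtain ⟨i, hi⟩ := exists_PL h
  obtain ⟨M0, hM0⟩ := Filter.eventually_atTop.1 (hT (2 * (ex i + 1)))
  obtain ⟨n, hn0, hn⟩ := hCm (i, j, M0 + 2)
  simp only at hn0 hn
  rcases hn with hn | hn
  · have h1 := hM0 n (by omega)
    have h2 : n + (n + 2) ^ ex i ≤ n ^ (2 * (ex i + 1)) := by
      have g1 : n + 2 ≤ n ^ 2 := by nlinarith
      have g2 : n + (n + 2) ^ ex i ≤ (n + 2) ^ (ex i + 1) := by
        rw [pow_succ]
        have g3 : 1 ≤ (n + 2) ^ ex i := Nat.one_le_pow _ _ (by omega)
        have g4 : n * 1 ≤ n * (n + 2) ^ ex i := Nat.mul_le_mul_left _ g3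
        have g5 : (n + 2) ^ ex i * (n + 2) = n * (n + 2) ^ ex i + 2 * (n + 2) ^ ex i := by ring
        omega
      rw [pow_mul]
      exact g2.trans (Nat.pow_le_pow_left g1 _)
    have h3 := census_mono (NL j O) h2
    omega
  · apply hn
    rw [accC_tr, ← DD_ones ρ 0 n, ← hi]
    unfold PL
    rw [len_ones]

/-- The main theorem: left cuts are p-selective; if a left cut is `≤_T^P`-complete for `NP^O` then
`PH^O ⊆ P^(NP^O)`; above every oracle `X` there is an oracle `O` relative to which this happens and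
nothing more: `P^(NP^O)` does not collapse to few questions to `NP^O` in exponential time. -/
theorem main :
    (∀ ρ : ℕ → Bool, PSelective (LC ρ)) ∧
    (∀ (O : Lang) (ρ : ℕ → Bool), TuringComplete O (LC ρ) →
      ∀ (k : ℕ) (A : Lang), SigmaP O k A → TuringReducible O A (LC ρ)) ∧
    ∀ X : Lang, ∃ (O : Lang) (ρ : ℕ → Bool), (∀ v : List Bool, O (false :: v) = X v) ∧
      TuringComplete O (LC ρ) ∧ ¬ InP O (LC ρ) ∧
      (∀ m : ℕ, ∃ D : Lang, TuringReducible O D (LC ρ) ∧
        (∀ B : Lang, InNP O B → ∀ (c : Cmd) (C : ℕ), ¬ ∀ x : List Bool,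
          numQ O B c x (C * 2 ^ x.length ^ m + C) ≤ x.length ^ m + C ∧
            (Accepts (join O B) c x [] (C * 2 ^ x.length ^ m + C) ↔ D x = true)) ∧
        ∀ B : Lang, InNP O B → Sparse B → ∀ (c : Cmd) (C : ℕ), ¬ ∀ x : List Bool,
          (Accepts (join O B) c x [] (C * 2 ^ x.length ^ m + C) ↔ D x = true)) ∧
      ∀ B : Lang, InNP O B → Thin B → ¬ TuringReducible O (LC ρ) B := by
  refine ⟨LC_sel, fun O ρ hC => collapse hC, fun X => ?_⟩
  obtain ⟨O, ρ, hI, hA, hB, hC⟩ := exists_all X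
  have hthin : ∀ B : Lang, InNP O B → Thin B → ¬ TuringReducible O (LC ρ) B := by
    intro B hB1 hB2 h
    exact not_thin hC hB1 hB2 (inP_of (ptime_DD (ptime_of_inP h) 0))
  refine ⟨O, ρ, hI.i0, LC_complete hI, ?_, fun m => ⟨DD ρ m, ?_, ?_, ?_⟩, hthin⟩
  · intro h
    have h1 : InNP O (fun _ => false) :=
      inNP_of (V := fun _ => false) (PTime.const _) (B := fun n => n) UPoly.id
        (fun x hx => absurd hx (by simp)) (fun x y h => h)
    have h2 : Thin (fun _ => false) := by
      intro m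
      filter_upwards with n
      have : census (fun _ => false) (n ^ m) = 0 := by
        unfold census
        simp
      rw [this]
      exact Nat.zero_le _
    exact hthin _ h1 h2 (inP_of (ptime_of_inP h).lift)
  · exact inP_of (ptime_DD (PTime.askR (O := O) (B := LC ρ) (PTime.id (α := List Bool))) m)
  · exact fun B hB1 c C => not_few hA hB1 m c C
  · exact fun B hB1 hB2 c C => not_sparse hB hB1 hB2 m c C

end Pool.Agent.PSL
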