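import Pool.Agent.Lib_helper74.CKF.MACH
import Pool.Agent.Lib_helper74.CKF.ENUM
import Pool.Agent.Lib_helper74.NE.Comp

/-!
# Left cuts of infinite bit sequences
-/

set_option autoImplicit false

namespace Pool.Agent.PSL

open Pool.Agent.CK Pool.Agent.CKP

/-- dictionary order on finite strings: initial segments are smaller -/
def le : List Bool → List Bool → Bool
  | [], _ => true
  | _ :: _, [] => false
  | a :: x, b :: y => (!a && b) || ((a == b) && le x y)

/-- `x` is at most the infinite sequence `ρ` in the dictionary order -/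
def leI : List Bool → (ℕ → Bool) → Bool
  | [], _ => true
  | a :: x, ρ => (!a && ρ 0) || ((a == ρ 0) && leI x (fun n => ρ (n + 1)))

/-- initial segment of length `n` -/
def pre (ρ : ℕ → Bool) (n : ℕ) : List Bool := (List.range n).map ρ

@[simp] theorem pre_length (ρ : ℕ → Bool) (n : ℕ) : (pre ρ n).length = n := by simp [pre]

theorem pre_succ (ρ : ℕ → Bool) (n : ℕ) : pre ρ (n + 1) = pre ρ n ++ [ρ n] := by
  simp [pre, List.range_succ]

theorem pre_cons (ρ : ℕ → Bool) (n : ℕ) :
    pre ρ (n + 1) = ρ 0 :: pre (fun m => ρ (m + 1)) n := by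
  simp [pre, List.range_succ_eq_map, Function.comp_def]

theorem pre_congr {ρ ρ' : ℕ → Bool} {n : ℕ} (h : ∀ m < n, ρ m = ρ' m) : pre ρ n = pre ρ' n := by
  unfold pre
  apply List.map_congr_left
  intro a ha
  exact h a (List.mem_range.1 ha)

theorem pre_inj {ρ ρ' : ℕ → Bool} {n : ℕ} (h : pre ρ n = pre ρ' n) : ∀ m < n, ρ m = ρ' m := by
  intro m hm
  have h1 : (pre ρ n)[m]? = (pre ρ' n)[m]? := by rw [h]
  simpa [pre, hm] using h1

theorem pre_prefix (ρ : ℕ → Bool) {m n : ℕ} (h : m ≤ n) : pre ρ m <+: pre ρ n := by
  obtain ⟨d, rfl⟩ := Nat.exists_eq_add_of_le h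
  unfold pre
  rw [List.range_add, List.map_append]
  exact List.prefix_append _ _

theorem le_total (x y : List Bool) : le x y = true ∨ le y x = true := by
  induction x generalizing y with
  | nil => exact Or.inl rfl
  | cons a x ih =>
    cases y with
    | nil => exact Or.inr rfl
    | cons b y =>
      have := ih y
      cases a <;> cases b <;> simp [le, this]

theorem le_leI {x y : List Bool} {ρ : ℕ → Bool} (h : le x y = true) (h' : leI y ρ = true) :
    leI x ρ = true := by
  induction x generalizing y ρ with
  | nil => rfl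
  | cons a x ih =>
    cases y with
    | nil => simp [le] at h
    | cons b y =>
      have := @ih y (fun n => ρ (n + 1))
      cases a <;> cases b <;> cases h0 : ρ 0 <;> simp_all [le, leI]

theorem leI_le {x : List Bool} {ρ : ℕ → Bool} {m : ℕ} (hm : x.length ≤ m)
    (h : leI x ρ = true) : le x (pre ρ m) = true := by
  induction x generalizing ρ m with
  | nil => rfl
  | cons a x ih =>
    cases m with
    | zero => simp at hm
    | succ m =>
      rw [pre_cons]
      have := @ih (fun n => ρ (n + 1)) m (by simpa using hm)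
      cases a <;> cases h0 : ρ 0 <;> simp_all [le, leI]

theorem leI_pre (ρ : ℕ → Bool) (n : ℕ) : leI (pre ρ n) ρ = true := by
  induction n generalizing ρ with
  | zero => rfl
  | succ n ih =>
    rw [pre_cons]
    have := ih (fun m => ρ (m + 1))
    simp [leI, this]

theorem leI_snoc (ρ : ℕ → Bool) (n : ℕ) : leI (pre ρ n ++ [true]) ρ = ρ n := by
  induction n generalizing ρ with
  | zero => simp [pre, leI]
  | succ n ih =>
    rw [pre_cons]
    have := ih (fun m => ρ (m + 1))
    simp only [List.cons_append, leI]
    rw [this]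
    cases ρ 0 <;> simp

theorem leI_congr {x : List Bool} {ρ ρ' : ℕ → Bool} (h : ∀ m < x.length, ρ m = ρ' m) :
    leI x ρ = leI x ρ' := by
  induction x generalizing ρ ρ' with
  | nil => rfl
  | cons a x ih =>
    have h0 : ρ 0 = ρ' 0 := h 0 (by simp)
    have h1 := @ih (fun n => ρ (n + 1)) (fun n => ρ' (n + 1)) (fun m hm => h (m + 1) (by simp; omega))
    simp only [leI, h0, h1]

/-- the left cut grows with the sequence -/
theorem leI_mono {x : List Bool} {ρ ρ' : ℕ → Bool} {a : ℕ} (h : ∀ m < a, ρ' m = ρ m)
    (h0 : ρ a = false) (h1 : ρ' a = true) (hx : leI x ρ = true) : leI x ρ' = true := by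
  induction x generalizing ρ ρ' a with
  | nil => rfl
  | cons c x ih =>
    cases a with
    | zero =>
      cases c <;> simp_all [leI]
    | succ a =>
      have e0 : ρ' 0 = ρ 0 := h 0 (by omega)
      have := @ih (fun n => ρ (n + 1)) (fun n => ρ' (n + 1)) a (fun m hm => h (m + 1) (by omega))
        h0 h1
      cases c <;> cases h2 : ρ 0 <;> simp_all [leI]

end Pool.Agent.PSL
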