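import Pool.Agent.Lib_helper61.PSL.Reqs

/-!
# Polynomial time parts
-/

set_option autoImplicit false
set_option linter.unusedSectionVars false

namespace Pool.Agent.PSL

open Pool.Agent.CK Pool.Agent.CKP

variable {O P : Lang}

/-! ### the order -/

/-- one step of the comparison -/
def lstep (s : Bool × Bool × List Bool) (a : Bool) : Bool × Bool × List Bool :=
  if s.1 = true then s else lcase s.2.2 (true, false, []) fun b r =>
    if (if a = true then b else !b) = true then (false, true, r) else (true, (!a && b), r)

theorem lstep_done (x : List Bool) (v : Bool) (r : List Bool) :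
    (x.foldl lstep (true, v, r)).2.1 = v := by
  induction x with
  | nil => rfl
  | cons a x ih =>
    rw [List.foldl_cons]
    exact ih

theorem le_eq (x y : List Bool) : le x y = (x.foldl lstep (false, true, y)).2.1 := by
  induction x generalizing y with
  | nil => rfl
  | cons a x ih =>
    cases y with
    | nil =>
      rw [List.foldl_cons]
      have : lstep (false, true, []) a = (true, false, []) := rfl
      rw [this, lstep_done]
      rfl
    | cons b y =>
      rw [List.foldl_cons]
      cases a <;> cases b
      · have : lstep (false, true, false :: y) false = (false, true, y) := rfl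
        rw [this, ← ih]; simp [le]
      · have : lstep (false, true, true :: y) false = (true, true, y) := rfl
        rw [this, lstep_done]; simp [le]
      · have : lstep (false, true, false :: y) true = (true, false, y) := rfl
        rw [this, lstep_done]; simp [le]
      · have : lstep (false, true, true :: y) true = (false, true, y) := rfl
        rw [this, ← ih]; simp [le]

theorem bool_sz (b : Bool) : 1 ≤ sz b ∧ sz b ≤ 3 := num_bool_sz b

theorem lstep_sz (s : Bool × Bool × List Bool) (a : Bool) : sz (lstep s a) ≤ sz s + 6 := by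
  obtain ⟨d, v, r⟩ := s
  unfold lstep
  have h1 := bool_sz d
  have h2 := bool_sz v
  by_cases h : d = true
  · rw [if_pos h]
    omega
  · rw [if_neg h]
    cases r with
    | nil =>
      simp only [lcase_nil, sz_pair, sz_nil, sz_true, sz_false]
      omega
    | cons b r =>
      simp only [lcase_cons]
      generalize (if a = true then b else !b) = e
      cases e
      · have h3 := bool_sz (!a && b)
        simp only [Bool.false_eq_true, if_false, sz_pair, sz_cons, sz_true]
        omega
      · simp only [if_true, sz_pair, sz_cons, sz_true, sz_false]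
        omega

theorem ptime_le {γ : Type} [ToD γ] {x y : γ → List Bool} (hx : PTime P x) (hy : PTime P y) :
    PTime P (fun a => le (x a) (y a)) := by
  have hs : PTime P (fun p : γ × (Bool × Bool × List Bool) × Bool => lstep p.2.1 p.2.2) := by
    unfold lstep
    have h1 : PTime P (fun p : γ × (Bool × Bool × List Bool) × Bool => p.2.1) := PTime.id.snd.fst
    refine PTime.ite h1.fst h1 ?_
    refine PTime.lcase (l := fun p : γ × (Bool × Bool × List Bool) × Bool => p.2.1.2.2)
      (n := fun _ => ((true, false, []) : Bool × Bool × List Bool))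
      (c := fun p b r => if (if p.2.2 = true then b else !b) = true then (false, true, r)
        else (true, (!p.2.2 && b), r)) h1.snd.snd (PTime.const _) ?_
    have ha : PTime P (fun q : (γ × (Bool × Bool × List Bool) × Bool) × Bool × List Bool =>
      q.1.2.2) := PTime.id.fst.snd.snd
    have hb : PTime P (fun q : (γ × (Bool × Bool × List Bool) × Bool) × Bool × List Bool =>
      q.2.1) := PTime.id.snd.fst
    have hr : PTime P (fun q : (γ × (Bool × Bool × List Bool) × Bool) × Bool × List Bool =>
      q.2.2) := PTime.id.snd.snd
    exact PTime.ite (PTime.ite ha hb hb.not)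
      ((PTime.const false).pair ((PTime.const true).pair hr))
      ((PTime.const true).pair ((ha.not.and hb).pair hr))
  have h := PTime.foldl_add (l := x) (i := fun a => ((false, true, y a) : Bool × Bool × List Bool))
    (s := fun _ b a => lstep b a) hx ((PTime.const false).pair ((PTime.const true).pair hy)) hs
    (Polynomial.C 6) (by
      intro a b c _
      rw [Polynomial.eval_C]
      exact lstep_sz b c)
  exact (h.snd.fst).of_eq fun a => (le_eq _ _).symm

/-! ### the search -/

theorem sz_snoc {α : Type} [ToD α] (u : List α) (b : α) : sz (u ++ [b]) = sz u + sz b + 1 := by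
  induction u with
  | nil =>
    rw [List.nil_append, sz_cons, sz_nil]
    omega
  | cons a u ih =>
    rw [List.cons_append, sz_cons, sz_cons, ih]
    omega

/-- search of an initial segment -/
def srch (L : Lang) (l : List Unit) : List Bool :=
  l.foldl (fun u _ => u ++ [L (u ++ [true])]) []

theorem srch_eq {L : Lang} {ρ : ℕ → Bool} (hL : ∀ x, L x = leI x ρ) (l : List Unit) :
    srch L l = pre ρ l.length := by
  have key : ∀ (l : List Unit) (n : ℕ), l.foldl (fun u _ => u ++ [L (u ++ [true])]) (pre ρ n) =
      pre ρ (n + l.length) := by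
    intro l
    induction l with
    | nil => intro n; rfl
    | cons a t ih =>
      intro n
      rw [List.foldl_cons, hL, leI_snoc, ← pre_succ, ih, List.length_cons]
      congr 1
      omega
  have := key l 0
  rw [Nat.zero_add] at this
  exact this

theorem ptime_srch {γ : Type} [ToD γ] {L : Lang} (hL : PTime P L) {l : γ → List Unit}
    (hl : PTime P l) : PTime P (fun a => srch L (l a)) := by
  unfold srch
  have hu : PTime P (fun p : γ × List Bool × Unit => p.2.1) := PTime.id.snd.fst
  have hone : ∀ {f : γ × List Bool × Unit → Bool}, PTime P f →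
      PTime P (fun p : γ × List Bool × Unit => p.2.1 ++ [f p]) := fun hf =>
    hu.append (hf.cons (PTime.const []))
  refine PTime.foldl_add (l := l) (i := fun _ => ([] : List Bool))
    (s := fun _ u _ => u ++ [L (u ++ [true])]) hl (PTime.const _)
    (hone (hL.comp (hone (PTime.const true)))) (Polynomial.C 4) ?_
  intro x b a _
  rw [Polynomial.eval_C, sz_snoc]
  have := bool_sz (L (b ++ [true]))
  omega

/-! ### powers of two -/

theorem sz_units (l : List Unit) : sz l = 2 * l.length + 1 := by
  induction l with
  | nil => rfl
  | cons a t ih =>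
    rw [sz_cons, ih, List.length_cons]
    have : sz a = 1 := rfl
    omega

theorem ptime_dbl {γ : Type} [ToD γ] {l : γ → List Unit} (hl : PTime P l) :
    PTime P (fun a => dbl (l a)) := by
  have h : PTime P dbl := by
    unfold dbl
    have hm : PTime P (fun p : List Unit × List Unit × Unit => p.2.1) := PTime.id.snd.fst
    have hx : PTime P (fun p : List Unit × List Unit × Unit => p.1) := PTime.id.fst
    refine PTime.foldl (l := fun l : List Unit => l) (i := fun _ => [()])
      (s := fun l m _ => if decide (m.length < l.length) = true then m ++ m else m)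
      PTime.id (PTime.const _)
      (PTime.ite (PTime.nat_lt hm.length hx.length) (hm.append hm) hm)
      (2 * Polynomial.X + 3) ?_
    intro l l' _
    obtain ⟨k, h1, h2, -⟩ := dbl_key l.length l'
    rw [sz_units, sz_units, h1]
    simp only [Polynomial.eval_add, Polynomial.eval_mul, Polynomial.eval_ofNat, Polynomial.eval_X]
    omega
  exact h.comp hl

/-! ### the language -/

/-- the left cut -/
def LC (ρ : ℕ → Bool) : Lang := fun x => leI x ρ

/-- bits of the sequence -/
def DD (ρ : ℕ → Bool) (m : ℕ) : Lang := fun x => ρ (ps m x.length)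

/-- the bits from the left cut -/
theorem ptime_DD {ρ : ℕ → Bool} (h : PTime P (LC ρ)) (m : ℕ) : PTime P (DD ρ m) := by
  have hd : PTime P (fun x : List Bool =>
      (dbl (List.replicate ((x.length + 2) ^ (m + 4)) ())).tail) :=
    PTime.tail (ptime_dbl ((UPoly.tb (m + 4)).comp (PTime.id (O := P) (α := List Bool))))
  refine (h.comp ((ptime_srch h hd).append (PTime.const [true]))).of_eq fun x => ?_
  show LC ρ (srch (LC ρ) (dbl (List.replicate ((x.length + 2) ^ (m + 4)) ())).tail ++ [true]) =
    ρ (ps m x.length)
  rw [srch_eq (L := LC ρ) (ρ := ρ) (fun _ => rfl), List.length_tail]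
  exact leI_snoc ρ _

theorem ptime_qA {γ : Type} [ToD γ] {u : γ → List Bool} (hu : PTime P u) :
    PTime P (fun a => qA (u a)) :=
  PTime.enc ((PTime.const D.nil).consD hu.code)

theorem ptime_qB {γ : Type} [ToD γ] {u w : γ → List Bool} (hu : PTime P u) (hw : PTime P w) :
    PTime P (fun a => qB (u a) (w a)) :=
  PTime.enc (((PTime.const D.nil).consD hw.code).consD hu.code)

theorem ptime_kg (i : ℕ) : PTime P (kg i) :=
  PTime.enc ((PTime.const (tg i)).consD ((PTime.id (α := List Bool)).code.consD
    (((UPoly.tb (ex i)).comp (PTime.id (α := List Bool))).code)))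

theorem askL {B : Lang} {γ : Type} [ToD γ] {f : γ → List Bool} (hf : PTime (join O B) f) :
    PTime (join O B) (fun a => O (f a)) :=
  (PTime.ask (O := join O B) (PTime.cons (PTime.const false) hf)).of_eq fun _ => rfl

theorem LC_inNP {X : Lang} {ρ : ℕ → Bool} (hI : Inv X O ρ) : InNP O (LC ρ) := by
  refine inNP_of (V := fun p => le p.1 p.2 && O (qA p.2))
    ((ptime_le PTime.id.fst PTime.id.snd).and (PTime.ask (ptime_qA PTime.id.snd)))
    (B := fun n => 2 * n + 1) (((UPoly.const 2).mul UPoly.id).add (UPoly.const 1)) ?_ ?_
  · intro x hx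
    obtain ⟨k, -, h1, h2⟩ := dbl_spec (List.replicate x.length ())
    rw [List.length_replicate] at h1 h2
    refine ⟨pre ρ (2 ^ k), by rw [pre_length]; exact h2, ?_⟩
    rw [Bool.and_eq_true]
    exact ⟨leI_le h1 hx, hI.i2 k⟩
  · intro x y h
    rw [Bool.and_eq_true] at h
    exact le_leI h.1 (hI.i1 y h.2)

theorem LC_complete {X : Lang} {ρ : ℕ → Bool} (hI : Inv X O ρ) : TuringComplete O (LC ρ) := by
  refine ⟨LC_inNP hI, fun A hA => ?_⟩
  obtain ⟨i, rfl⟩ := exists_NL hA
  refine inP_of ?_
  have hL : PTime (join O (LC ρ)) (LC ρ) :=
    (PTime.askR (O := O) (B := LC ρ) (PTime.id (α := List Bool)))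
  have hw : PTime (join O (LC ρ)) (kg i) := ptime_kg i
  have hu : PTime (join O (LC ρ)) (fun x => srch (LC ρ) (dbl
      (List.replicate (8 * (kg i x).length + 8) ()))) :=
    ptime_srch hL (ptime_dbl ((((UPoly.const 8).mul UPoly.id).add (UPoly.const 8)).comp hw))
  refine (askL (ptime_qB hu hw)).of_eq fun x => ?_
  obtain ⟨k, h0, h1, h2⟩ := dbl_spec (List.replicate (8 * (kg i x).length + 8) ())
  rw [List.length_replicate] at h1
  rw [srch_eq (L := LC ρ) (ρ := ρ) (fun _ => rfl), h0, hI.i3 k _ h1, K_kg]

/-! ### programs with two inputs -/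

/-- raw inputs on the stacks `0`, `1` to the code of the pair -/
def pairP : Cmd :=
  .seq (mv 0 2) (.seq (mv 1 3) (.seq (.push 0 false) (.seq (conv 3)
    (.seq (.push 0 false) (.seq (conv 2) (.push 0 true))))))

theorem pairP_ex (x y : List Bool) : Ex P pairP (init x y)
    (Function.update (fun _ => []) 0 (toD (x, y)).enc) (16 * x.length + 16 * y.length + 20) := by
  have hi : init x y = S4 (fun _ => []) x y [] [] := by
    funext r
    match r with
    | 0 => rfl
    | 1 => rfl
    | 2 => rfl
    | 3 => rfl
    | n + 4 => rfl
  have e1 : Ex P (mv 0 2) (init x y) (S4 (fun _ => []) [] y x.reverse []) (5 * x.length + 1) := by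
    have := mv_ex (O := P) (r := 0) (s := 2) (by decide) x (init x y) rfl
    rw [hi, S4_u2, S4_u0] at this
    rw [hi]
    simpa [S4] using this
  have e2 : Ex P (mv 1 3) (S4 (fun _ => []) [] y x.reverse [])
      (S4 (fun _ => []) [] [] x.reverse y.reverse) (5 * y.length + 1) := by
    have := mv_ex (O := P) (r := 1) (s := 3) (by decide) y
      (S4 (fun _ => []) [] y x.reverse []) rfl
    rw [S4_u3, S4_u1] at this
    simpa [S4] using this
  have e3 : Ex P (.push 0 false) (S4 (fun _ => []) [] [] x.reverse y.reverse)
      (S4 (fun _ => []) [false] [] x.reverse y.reverse) 1 := by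
    have := Ex.push (O := P) 0 false (S4 (fun _ => []) [] [] x.reverse y.reverse)
    rw [S4_u0] at this
    exact this
  have e4 : Ex P (conv 3) (S4 (fun _ => []) [false] [] x.reverse y.reverse)
      (S4 (fun _ => []) (toD y).enc [] x.reverse []) (11 * y.length + 1) := by
    have := conv_ex (O := P) (r := 3) (by decide) y.reverse [] []
      (S4 (fun _ => []) [false] [] x.reverse y.reverse) rfl rfl
    rw [S4_u3, S4_u0] at this
    simpa using this
  have e5 : Ex P (.push 0 false) (S4 (fun _ => []) (toD y).enc [] x.reverse [])
      (S4 (fun _ => []) (false :: (toD y).enc) [] x.reverse []) 1 := by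
    have := Ex.push (O := P) 0 false (S4 (fun _ => []) (toD y).enc [] x.reverse [])
    rw [S4_u0] at this
    exact this
  have e6 : Ex P (conv 2) (S4 (fun _ => []) (false :: (toD y).enc) [] x.reverse [])
      (S4 (fun _ => []) ((toD x).enc ++ (toD y).enc) [] [] []) (11 * x.length + 1) := by
    have := conv_ex (O := P) (r := 2) (by decide) x.reverse [] (toD y).enc
      (S4 (fun _ => []) (false :: (toD y).enc) [] x.reverse []) rfl rfl
    rw [S4_u2, S4_u0] at this
    simpa using this
  have e7 : Ex P (.push 0 true) (S4 (fun _ => []) ((toD x).enc ++ (toD y).enc) [] [] [])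
      (Function.update (fun _ => []) 0 (toD (x, y)).enc) 1 := by
    have := Ex.push (O := P) 0 true (S4 (fun _ => []) ((toD x).enc ++ (toD y).enc) [] [] [])
    rw [S4_u0] at this
    refine this.cast ?_
    funext r
    match r with
    | 0 => rfl
    | 1 => rfl
    | 2 => rfl
    | 3 => rfl
    | n + 4 => rfl
  refine (e1.seq (e2.seq (e3.seq (e4.seq (e5.seq (e6.seq e7)))))).mono ?_
  omega

/-- polynomial time functions of two strings on the machine -/
theorem two_inputs {f : List Bool × List Bool → List Bool} (hf : PTime P f) :
    ∃ (c : Cmd) (k : ℕ), ∀ x y : List Bool,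
      Halts P c x y ((x.length + y.length + 2) ^ k) ∧
        (run P c x y ((x.length + y.length + 2) ^ k)).2 0 = f (x, y) := by
  obtain ⟨Q, hQ⟩ := hf.size_le
  obtain ⟨F, ⟨p, m, R, hp, hm, h⟩, hF⟩ := hf
  obtain ⟨k, hk⟩ := exists_pow (16 * Polynomial.X + 32 + R.comp (4 * Polynomial.X + 3) +
    17 * Q.comp (4 * Polynomial.X + 3))
  refine ⟨.seq pairP (.seq p unDP), k, fun x y => ?_⟩
  have e1 := pairP_ex (P := P) x y
  have e2 : Ex P p (Function.update (fun _ => []) 0 (toD (x, y)).enc)
      (Function.update (Function.update (fun _ => []) 0 (toD (x, y)).enc) 0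
        (F (toD (x, y))).enc) (R.eval (toD (x, y)).size) :=
    h (toD (x, y)) _ ⟨(x, y), rfl⟩ (by simp) (fun r hr _ => by
      rw [Function.update_of_ne (by omega)])
  rw [hF] at e2
  have e3 := unDP_ex (O := P) (f (x, y)) (Function.update (Function.update (fun _ => []) 0
    (toD (x, y)).enc) 0 (toD (f (x, y))).enc) (by simp) (by simp)
  obtain ⟨t, ht, he⟩ := e1.seq (e2.seq e3)
  have hT : t ≤ (x.length + y.length + 2) ^ k := by
    refine ht.trans (le_trans ?_ (hk (x.length + y.length)))
    have hs : (toD (x, y)).size ≤ 4 * (x.length + y.length) + 3 := by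
      have g1 : (toD (x, y)).size = (toD x).size + (toD y).size + 1 := rfl
      have g2 := size_bits x
      have g3 := size_bits y
      omega
    have h1 := poly_mono R hs
    have h2 := hQ (x, y)
    have h3 := poly_mono Q hs
    have h4 : (f (x, y)).length ≤ sz (f (x, y)) := length_le_sz _
    have h5 : Q.eval (sz (x, y)) = Q.eval (toD (x, y)).size := rfl
    simp only [Polynomial.eval_comp, Polynomial.eval_add, Polynomial.eval_mul,
      Polynomial.eval_ofNat, Polynomial.eval_X]
    omega
  have hrun := he.run hT
  unfold Halts
  rw [hrun]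
  exact ⟨rfl, by simp⟩

end Pool.Agent.PSL
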