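import Pool.Agent.Lib_helper61.PSL.Tree

/-!
# The three kinds of requirements
-/

set_option autoImplicit false

namespace Pool.Agent.PSL

open Pool.Agent.CK Pool.Agent.CKP

/-- the number of elements of length at most `l` -/
noncomputable def census (B : Lang) (l : ℕ) : ℕ :=
  {y : List Bool | y.length ≤ l ∧ B y = true}.ncard

theorem census_finite (B : Lang) (l : ℕ) : {y : List Bool | y.length ≤ l ∧ B y = true}.Finite :=
  (List.finite_length_le Bool l).subset fun _ h => h.1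

theorem Z.mono {ρ : ℕ → Bool} {m n : ℕ} (h : Z ρ m) (hmn : m ≤ n) : Z ρ n :=
  fun k hk => h k (hmn.trans hk)

/-- one step of the construction -/
theorem step_of {X O : Lang} {ρ : ℕ → Bool} {κ : ℕ} (hI : Inv X O ρ) (hZ : Z ρ (2 ^ κ)) {κ1 : ℕ}
    (hκ : κ ≤ κ1) {Q s : ℕ}
    (room : (Q + 1) * (2 * s + 2) ≤ 2 ^ (2 ^ κ1)) (Bad : Lang → Prop) (out : Lang → Bool)
    (pt : Lang → ℕ) (hpot : ∀ O', ¬ Bad O' → pt O' ≤ Q)
    (hstep : ∀ O1, ¬ Bad O1 → ∃ S : List (List Bool), S.length ≤ s ∧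
      ∀ O2 : Lang, (∀ q ∈ S, O2 q = O1 q) →
        Bad O2 ∨ (out O2 = out O1 ∧ pt O2 = pt O1) ∨ pt O1 < pt O2)
    (M : ℕ) (hloc : ∀ O1 O2 : Lang, (∀ q : List Bool, q.length < M → O1 q = O2 q) →
      (Bad O1 → Bad O2) ∧ out O1 = out O2) :
    ∃ (O' : Lang) (ρ' : ℕ → Bool) (κ' : ℕ), κ < κ' ∧ Inv X O' ρ' ∧ Z ρ' (2 ^ κ') ∧
      (∀ q : List Bool, q.length < 2 ^ κ → O' q = O q) ∧ (∀ n < 2 ^ κ, ρ' n = ρ n) ∧
      ∀ (O'' : Lang) (ρ'' : ℕ → Bool), (∀ q : List Bool, q.length < 2 ^ κ' → O'' q = O' q) →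
        (∀ n < 2 ^ κ', ρ'' n = ρ' n) → (Bad O'' ∨ out O'' ≠ ρ'' (2 ^ (κ1 + 1) - 1)) := by
  have hp : 2 ^ κ ≤ 2 ^ κ1 := Nat.pow_le_pow_right (by norm_num) hκ
  obtain ⟨O', v, _, hI', hag, hd⟩ := diag hI (hZ.mono hp) room Bad out pt hpot hstep
  have hk1 : 2 ^ (κ1 + 1) ≤ 2 ^ max (κ1 + 1) M :=
    Nat.pow_le_pow_right (by norm_num) (le_max_left _ _)
  have hk2 : M ≤ 2 ^ max (κ1 + 1) M :=
    Nat.lt_two_pow_self.le.trans (Nat.pow_le_pow_right (by norm_num) (le_max_right _ _))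
  have h0 : 0 < 2 ^ (κ1 + 1) := by positivity
  refine ⟨O', blk ρ κ1 v, max (κ1 + 1) M, ?_, hI', (blk_Z ρ κ1 v).mono hk1,
    fun q hq => hag q (by omega), fun n hn => blk_low (by omega), fun O'' ρ'' h1 h2 => ?_⟩
  · have := le_max_left (κ1 + 1) M
    omega
  · obtain ⟨hl1, hl2⟩ := hloc O' O'' (fun q hq => (h1 q (by omega)).symm)
    rcases hd with hd | hd
    · exact Or.inl (hl1 hd)
    · right
      rw [← hl2, h2 _ (by omega)]
      exact hd

/-! ### numbers -/

theorem room_gen {Q S X N α β : ℕ} (hX : 1 ≤ X) (h1 : Q + 1 ≤ 2 ^ (α * X))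
    (h2 : S ≤ 2 ^ (β * X)) (h3 : (α + β + 2) * X ≤ N) : (Q + 1) * (2 * S + 2) ≤ 2 ^ N := by
  have h4 : 1 ≤ 2 ^ (β * X) := Nat.one_le_two_pow
  calc (Q + 1) * (2 * S + 2) ≤ 2 ^ (α * X) * (4 * 2 ^ (β * X)) := Nat.mul_le_mul h1 (by omega)
    _ = 2 ^ (α * X + β * X + 2) := by ring
    _ ≤ 2 ^ N := by
      apply Nat.pow_le_pow_right (by norm_num)
      refine le_trans ?_ h3
      have : (α + β + 2) * X = α * X + β * X + 2 * X := by ring
      omega

/-- a power of two between `|l|` and `2 |l| + 1`, in unary -/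
def dbl (l : List Unit) : List Unit :=
  l.foldl (fun m _ => if decide (m.length < l.length) = true then m ++ m else m) [()]

theorem dbl_key (n : ℕ) (l' : List Unit) : ∃ k,
    (l'.foldl (fun (m : List Unit) _ => if decide (m.length < n) = true then m ++ m else m)
      [()]).length = 2 ^ k ∧ 2 ^ k ≤ 2 * n + 1 ∧ (l'.length ≤ k ∨ n ≤ 2 ^ k) := by
  have key : ∀ (l' : List Unit) (m : List Unit) (k : ℕ), m.length = 2 ^ k → 2 ^ k ≤ 2 * n + 1 →
      ∃ k', (l'.foldl (fun (m : List Unit) _ => if decide (m.length < n) = true then m ++ m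
        else m) m).length = 2 ^ k' ∧ 2 ^ k' ≤ 2 * n + 1 ∧ (k + l'.length ≤ k' ∨ n ≤ 2 ^ k') := by
    intro l'
    induction l' with
    | nil => intro m k h1 h2; exact ⟨k, h1, h2, Or.inl (by simp)⟩
    | cons a t ih =>
      intro m k h1 h2
      rw [List.foldl_cons]
      by_cases h : m.length < n
      · rw [if_pos (by simpa using h)]
        have e : 2 ^ (k + 1) = 2 ^ k + 2 ^ k := by ring
        obtain ⟨k', g1, g2, g3⟩ := ih (m ++ m) (k + 1) (by rw [List.length_append, h1, e])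
          (by omega)
        refine ⟨k', g1, g2, ?_⟩
        rw [List.length_cons]
        omega
      · rw [if_neg (by simpa using h)]
        obtain ⟨k', g1, g2, g3⟩ := ih m k h1 h2
        refine ⟨k', g1, g2, Or.inr ?_⟩
        rcases g3 with g3 | g3
        · have : 2 ^ k ≤ 2 ^ k' := Nat.pow_le_pow_right (by norm_num) (by omega)
          omega
        · exact g3
  obtain ⟨k', g1, g2, g3⟩ := key l' [()] 0 (by simp) (by omega)
  exact ⟨k', g1, g2, by simpa using g3⟩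

theorem dbl_spec (l : List Unit) : ∃ k, (dbl l).length = 2 ^ k ∧ l.length ≤ 2 ^ k ∧
    2 ^ k ≤ 2 * l.length + 1 := by
  obtain ⟨k, h1, h2, h3⟩ := dbl_key l.length l
  refine ⟨k, h1, ?_, h2⟩
  rcases h3 with h3 | h3
  · exact h3.trans Nat.lt_two_pow_self.le
  · exact h3

/-- the position that is used for inputs of length `n`: the last position of a block -/
def ps (m n : ℕ) : ℕ := (dbl (List.replicate ((n + 2) ^ (m + 4)) ())).length - 1

theorem ps_spec (m a κ : ℕ) : ∀ᶠ n : ℕ in Filter.atTop, ∃ κ1, κ ≤ κ1 ∧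
    ps m n = 2 ^ (κ1 + 1) - 1 ∧ a * (n + 2) ^ (m + 2) ≤ 2 ^ κ1 := by
  filter_upwards [Filter.eventually_ge_atTop (2 * a), Filter.eventually_ge_atTop (2 ^ (κ + 1))]
    with n h1 h2
  obtain ⟨k, e1, e2, -⟩ := dbl_spec (List.replicate ((n + 2) ^ (m + 4)) ())
  rw [List.length_replicate] at e2
  have h3 : (n + 2) ^ (m + 4) = (n + 2) ^ (m + 2) * ((n + 2) * (n + 2)) := by ring
  have h4 : 1 ≤ (n + 2) ^ (m + 2) := Nat.one_le_pow _ _ (by omega)
  have h5 : n + 2 ≤ (n + 2) * (n + 2) := Nat.le_mul_of_pos_right _ (by omega)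
  have h6 : (n + 2) ≤ (n + 2) ^ (m + 4) := by
    rw [h3]
    exact h5.trans (Nat.le_mul_of_pos_left _ (by omega))
  have hk : κ + 1 < k := by
    apply (Nat.pow_lt_pow_iff_right (a := 2) (by norm_num)).1
    omega
  obtain ⟨κ1, rfl⟩ : ∃ κ1, k = κ1 + 1 := ⟨k - 1, by omega⟩
  refine ⟨κ1, by omega, by unfold ps; rw [e1], ?_⟩
  have h7 : 2 ^ (κ1 + 1) = 2 * 2 ^ κ1 := by ring
  have h8 : (n + 2) ^ (m + 2) * (2 * a) ≤ (n + 2) ^ (m + 2) * ((n + 2) * (n + 2)) :=
    Nat.mul_le_mul_left _ (by omega)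
  have h9 : (n + 2) ^ (m + 2) * (2 * a) = 2 * (a * (n + 2) ^ (m + 2)) := by ring
  omega

theorem num_X1 (n m : ℕ) : n + 2 ≤ (n + 2) ^ (m + 1) := by
  have h : 1 ≤ (n + 2) ^ m := Nat.one_le_pow _ _ (by omega)
  rw [pow_succ]
  exact Nat.le_mul_of_pos_left _ (by omega)

theorem num_X2 (n m : ℕ) : n ^ m ≤ (n + 2) ^ (m + 1) :=
  (Nat.pow_le_pow_left (by omega) m).trans (Nat.pow_le_pow_right (by omega) (by omega))

theorem num_X3 (n m : ℕ) : (n + 2) ^ (m + 1) ≤ (n + 2) ^ (m + 2) :=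
  Nat.pow_le_pow_right (by omega) (by omega)

/-- exponential running times -/
theorem num_T (n m C : ℕ) : C * 2 ^ n ^ m + C ≤ 2 ^ ((C + 2) * (n + 2) ^ (m + 1)) := by
  have h1 : C < 2 ^ C := Nat.lt_two_pow_self
  have h2 : 1 ≤ 2 ^ n ^ m := Nat.one_le_two_pow
  have h3 : C * 2 ^ n ^ m + C ≤ 2 * (2 ^ C * 2 ^ n ^ m) := by nlinarith
  have hX : 1 ≤ (n + 2) ^ (m + 1) := Nat.one_le_pow _ _ (by omega)
  have hX2 := num_X2 n m
  refine h3.trans ?_
  have e : 2 * (2 ^ C * 2 ^ n ^ m) = 2 ^ (1 + C + n ^ m) := by ring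
  rw [e]
  apply Nat.pow_le_pow_right (by norm_num)
  have e2 : (C + 2) * (n + 2) ^ (m + 1) = C * (n + 2) ^ (m + 1) + (n + 2) ^ (m + 1) +
    (n + 2) ^ (m + 1) := by ring
  have e3 : C * 1 ≤ C * (n + 2) ^ (m + 1) := Nat.mul_le_mul_left _ hX
  omega

theorem num_l (n m C : ℕ) :
    n + (C * 2 ^ n ^ m + C) + 2 ≤ 2 ^ ((C + 3) * (n + 2) ^ (m + 1)) := by
  have h1 := num_T n m C
  have h2 : n + 2 < 2 ^ (n + 2) := Nat.lt_two_pow_self
  have hX := num_X1 n m
  have h3 : 2 ^ (n + 2) ≤ 2 ^ (n + 2) ^ (m + 1) := Nat.pow_le_pow_right (by norm_num) hX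
  have h4 : 2 ≤ 2 ^ (n + 2) ^ (m + 1) := by omega
  have h6 : 2 ≤ 2 ^ ((C + 2) * (n + 2) ^ (m + 1)) := by
    calc 2 = 2 ^ 1 := by norm_num
      _ ≤ _ := Nat.pow_le_pow_right (by norm_num) (by nlinarith)
  have e : 2 ^ ((C + 3) * (n + 2) ^ (m + 1)) =
      2 ^ ((C + 2) * (n + 2) ^ (m + 1)) * 2 ^ (n + 2) ^ (m + 1) := by ring
  rw [e]
  nlinarith

/-! ### the decision tree of a run -/

/-- acceptance of a final configuration -/
def accC (cf : Config) : Bool := cf.1.isEmpty && ((cf.2 0).head? == some true)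

/-- the tree of the run of the program `i` on `1 ^ n` for `T` steps -/
def tr (i n T : ℕ) : DT Config := runTree T ([prog i], init (ones n) [])

theorem tr_depth (i n T : ℕ) : (tr i n T).depth ≤ T := mach_depth_runTree _ _

theorem tr_allQ (i n T : ℕ) : (tr i n T).AllQ fun w => w.length < n + T := by
  apply mach_allQ_runTree T _ n (n + T) (mach_init_len _ _ n (by simp [ones]) (by simp)) le_rfl

theorem accC_tr (O : Lang) (i n T : ℕ) :
    accC ((tr i n T).eval O) = accB O (prog i) (ones n) [] T := by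
  unfold tr
  rw [mach_eval_runTree]
  rfl

theorem nB_congr {β : Type} {O O' : Lang} (t : DT β) (P : List Bool → Prop) (h : t.AllQ P)
    (hO : ∀ w, P w → O w = O' w) : nB O t = nB O' t := by
  induction t with
  | leaf b => rfl
  | node w n0 n1 h0 h1 =>
    obtain ⟨hw, h2, h3⟩ := h
    rw [nB, nB, hO w hw, h0 h2, h1 h3]

/-- locality of the joined oracle -/
theorem join_congr {j l : ℕ} {O O' : Lang}
    (h : ∀ q : List Bool, q.length < (l + 2) ^ (j + 2) → O q = O' q) (w : List Bool)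
    (hw : w.length ≤ l + 1) : join O (NL j O) w = join O' (NL j O') w := by
  have h1 : l < (l + 2) ^ (j + 2) :=
    calc l < (l + 2) ^ 1 := by rw [pow_one]; omega
      _ ≤ (l + 2) ^ (j + 2) := Nat.pow_le_pow_right (by omega) (by omega)
  match w with
  | [] => rfl
  | false :: v =>
    simp only [List.length_cons] at hw
    exact h v (by omega)
  | true :: v =>
    simp only [List.length_cons] at hw
    apply NL_congr
    intro q hq
    apply h
    exact lt_of_lt_of_le hq (Nat.pow_le_pow_left (by omega) _)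

/-! ### the requirements -/

/-- the conclusion of one step -/
def Next (X : Lang) (Met : Lang → (ℕ → Bool) → Prop) (O : Lang) (ρ : ℕ → Bool) (κ : ℕ) : Prop :=
  ∃ (O' : Lang) (ρ' : ℕ → Bool) (κ' : ℕ), κ < κ' ∧ Inv X O' ρ' ∧ Z ρ' (2 ^ κ') ∧
    (∀ q : List Bool, q.length < 2 ^ κ → O' q = O q) ∧ (∀ n < 2 ^ κ, ρ' n = ρ n) ∧
    ∀ (O'' : Lang) (ρ'' : ℕ → Bool), (∀ q : List Bool, q.length < 2 ^ κ' → O'' q = O' q) →
      (∀ n < 2 ^ κ', ρ'' n = ρ' n) → Met O'' ρ''

theorem Next.mono {X : Lang} {Met Met' : Lang → (ℕ → Bool) → Prop} {O : Lang} {ρ : ℕ → Bool} {κ : ℕ}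
    (h : Next X Met O ρ κ) (hM : ∀ O ρ, Met O ρ → Met' O ρ) : Next X Met' O ρ κ := by
  obtain ⟨O', ρ', κ', h1, h2, h3, h4, h5, h6⟩ := h
  exact ⟨O', ρ', κ', h1, h2, h3, h4, h5, fun O'' ρ'' h7 h8 => hM _ _ (h6 O'' ρ'' h7 h8)⟩

/-- few questions to an `NP` language -/
theorem genA {X O : Lang} {ρ : ℕ → Bool} {κ : ℕ} (hI : Inv X O ρ) (hZ : Z ρ (2 ^ κ)) {κ1 : ℕ}
    (hκ1 : κ ≤ κ1) (i j n T b : ℕ)
    (room : (2 ^ b + 1) * (2 * (T * (n + T + 2) ^ ex j) + 2) ≤ 2 ^ (2 ^ κ1)) :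
    Next X (fun O ρ => b < nB (join O (NL j O)) (tr i n T) ∨
      accC ((tr i n T).eval (join O (NL j O))) ≠ ρ (2 ^ (κ1 + 1) - 1)) O ρ κ := by
  set t := tr i n T with ht
  have hall := tr_allQ i n T
  refine step_of hI hZ hκ1 room
    (fun O' => b < nB (join O' (NL j O')) t)
    (fun O' => accC (t.eval (join O' (NL j O'))))
    (fun O' => pot (join O' (NL j O')) t b)
    (by
      intro O' hO'
      exact (pot_lt _ _ _ (not_lt.1 hO')).le)
    (by
      intro O1 hO1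
      obtain ⟨S, hS, hS2⟩ := protects j O1 (path (join O1 (NL j O1)) t) (n + T) (by
        intro w hw
        have := path_allQ t hall w hw
        omega)
      refine ⟨S, hS.trans (Nat.mul_le_mul_right _ ((path_length _ _).trans (tr_depth _ _ _))),
        fun O2 hO2 => ?_⟩
      by_cases hB : b < nB (join O2 (NL j O2)) t
      · exact Or.inl hB
      · right
        rcases pot_step t b (fun w hw => hS2 O2 hO2 w hw) (not_lt.1 hO1)
          (not_lt.1 hB) with ⟨g1, g2⟩ | g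
        · exact Or.inl ⟨by rw [g1], g2⟩
        · exact Or.inr g)
    ((n + T + 2) ^ (j + 2))
    (by
      intro O1 O2 h
      have hj : ∀ w : List Bool, w.length < n + T →
          join O1 (NL j O1) w = join O2 (NL j O2) w :=
        fun w hw => join_congr h w (by omega)
      have g1 := nB_congr t _ hall hj
      have g2 := DT.eval_congr t _ hall hj
      exact ⟨fun hb => by rw [← g1]; exact hb, by rw [g2]⟩)

/-- questions to a small `NP` language -/
theorem genB {X O : Lang} {ρ : ℕ → Bool} {κ : ℕ} (hI : Inv X O ρ) (hZ : Z ρ (2 ^ κ)) {κ1 : ℕ}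
    (hκ1 : κ ≤ κ1) (i j n T Q : ℕ)
    (room : (Q + 1) * (2 * ((T + Q) * (n + T + 2) ^ ex j) + 2) ≤ 2 ^ (2 ^ κ1)) :
    Next X (fun O ρ => Q < census (NL j O) (n + T) ∨
      accC ((tr i n T).eval (join O (NL j O))) ≠ ρ (2 ^ (κ1 + 1) - 1)) O ρ κ := by
  classical
  set t := tr i n T with ht
  have hall := tr_allQ i n T
  refine step_of hI hZ hκ1 room
    (fun O' => Q < census (NL j O') (n + T))
    (fun O' => accC (t.eval (join O' (NL j O'))))
    (fun O' => census (NL j O') (n + T))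
    (fun O' hO' => not_lt.1 hO')
    (by
      intro O1 hO1
      have hfin := census_finite (NL j O1) (n + T)
      have hcard : hfin.toFinset.card = census (NL j O1) (n + T) :=
        (Set.ncard_eq_toFinset_card _ hfin).symm
      obtain ⟨S, hS, hS2⟩ := protects j O1 (path (join O1 (NL j O1)) t ++
        hfin.toFinset.toList.map (fun y => true :: y)) (n + T) (by
        intro w hw
        rw [List.mem_append] at hw
        rcases hw with hw | hw
        · have := path_allQ t hall w hw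
          omega
        · obtain ⟨y, hy, rfl⟩ := List.mem_map.1 hw
          have hy' := (hfin.mem_toFinset.1 (Finset.mem_toList.1 hy)).1
          simp only [List.length_cons]
          omega)
      refine ⟨S, hS.trans (Nat.mul_le_mul_right _ ?_), fun O2 hO2 => ?_⟩
      · rw [List.length_append, List.length_map, Finset.length_toList, hcard]
        exact Nat.add_le_add ((path_length _ _).trans (tr_depth _ _ _)) (not_lt.1 hO1)
      · right
        have hsub : {y : List Bool | y.length ≤ n + T ∧ NL j O1 y = true} ⊆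
            {y : List Bool | y.length ≤ n + T ∧ NL j O2 y = true} := by
          intro y hy
          refine ⟨hy.1, ?_⟩
          have hj : join O1 (NL j O1) (true :: y) = true := hy.2
          have := hS2 O2 hO2 (true :: y) (List.mem_append.2 (Or.inr (List.mem_map.2
            ⟨y, Finset.mem_toList.2 (hfin.mem_toFinset.2 hy), rfl⟩))) (Or.inr hj)
          rw [hj] at this
          exact this
        by_cases heq : {y : List Bool | y.length ≤ n + T ∧ NL j O1 y = true} =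
            {y : List Bool | y.length ≤ n + T ∧ NL j O2 y = true}
        · left
          have hNL : ∀ y : List Bool, y.length ≤ n + T → NL j O2 y = NL j O1 y := by
            intro y hy
            have h1 : (y.length ≤ n + T ∧ NL j O1 y = true) ↔
                (y.length ≤ n + T ∧ NL j O2 y = true) := Set.ext_iff.1 heq y
            rw [Bool.eq_iff_iff]
            constructor
            · intro h; exact (h1.2 ⟨hy, h⟩).2
            · intro h; exact (h1.1 ⟨hy, h⟩).2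
          have hev : t.eval (join O2 (NL j O2)) = t.eval (join O1 (NL j O1)) := by
            apply eval_of_path
            intro w hw
            have hlen := path_allQ t hall w hw
            match w with
            | [] => rfl
            | false :: v =>
              exact hS2 O2 hO2 _ (List.mem_append.2 (Or.inl hw)) (Or.inl rfl)
            | true :: v =>
              simp only [List.length_cons] at hlen
              exact hNL v (by omega)
          refine ⟨by rw [hev], ?_⟩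
          show census (NL j O2) (n + T) = census (NL j O1) (n + T)
          unfold census
          rw [heq]
        · right
          exact Set.ncard_lt_ncard (lt_of_le_of_ne hsub heq) (census_finite _ _))
    ((n + T + 2) ^ (j + 2))
    (by
      intro O1 O2 h
      have hj : ∀ w : List Bool, w.length ≤ n + T + 1 →
          join O1 (NL j O1) w = join O2 (NL j O2) w :=
        fun w hw => join_congr h w hw
      have g1 : census (NL j O1) (n + T) = census (NL j O2) (n + T) := by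
        unfold census
        congr 1
        ext y
        simp only [Set.mem_ofPred_eq]
        constructor
        · rintro ⟨a1, a2⟩
          have := hj (true :: y) (by simp only [List.length_cons]; omega)
          exact ⟨a1, by rw [← a2]; exact this.symm⟩
        · rintro ⟨a1, a2⟩
          have := hj (true :: y) (by simp only [List.length_cons]; omega)
          exact ⟨a1, by rw [← a2]; exact this⟩
      have g2 := DT.eval_congr t _ hall (fun w hw => hj w (by omega))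
      exact ⟨fun hb => by rw [← g1]; exact hb, by rw [g2]⟩)

/-- the exponential time bound -/
def et (C m n : ℕ) : ℕ := C * 2 ^ n ^ m + C

/-- few questions to an `NP` language, exponential time; `r` is the program, the `NP` language,
the constant and the exponent -/
def MetA (r : ℕ × ℕ × ℕ × ℕ) (O : Lang) (ρ : ℕ → Bool) : Prop :=
  ∃ n : ℕ, n ^ r.2.2.2 + r.2.2.1 <
      nB (join O (NL r.2.1 O)) (tr r.1 n (et r.2.2.1 r.2.2.2 n)) ∨
    accC ((tr r.1 n (et r.2.2.1 r.2.2.2 n)).eval (join O (NL r.2.1 O))) ≠ ρ (ps r.2.2.2 n)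

/-- questions to a small `NP` language, exponential time -/
def MetB (r : (ℕ × ℕ × ℕ × ℕ) × ℕ) (O : Lang) (ρ : ℕ → Bool) : Prop :=
  ∃ n : ℕ, r.2 ≤ n ∧
    (2 ^ (n + 2) ^ (r.1.2.2.2 + 2) < census (NL r.1.2.1 O) (n + et r.1.2.2.1 r.1.2.2.2 n) ∨
      accC ((tr r.1.1 n (et r.1.2.2.1 r.1.2.2.2 n)).eval (join O (NL r.1.2.1 O))) ≠
        ρ (ps r.1.2.2.2 n))

/-- questions to a thin `NP` language, polynomial time -/
def MetC (r : ℕ × ℕ × ℕ) (O : Lang) (ρ : ℕ → Bool) : Prop :=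
  ∃ n : ℕ, r.2.2 ≤ n ∧ (2 ^ n < census (NL r.2.1 O) (n + (n + 2) ^ ex r.1) ∨
    accC ((tr r.1 n ((n + 2) ^ ex r.1)).eval (join O (NL r.2.1 O))) ≠ ρ (ps 0 n))

theorem one_le_X (n m : ℕ) : 1 ≤ (n + 2) ^ m := Nat.one_le_pow _ _ (by omega)

theorem two_pow_mul_le {a b c : ℕ} (h : a ≤ b) (X : ℕ) (hc : c ≤ 2 ^ (a * X)) :
    c ≤ 2 ^ (b * X) :=
  hc.trans (Nat.pow_le_pow_right (by norm_num) (Nat.mul_le_mul_right _ h))

theorem pow_split (a b X : ℕ) : 2 ^ ((a + b) * X) = 2 ^ (a * X) * 2 ^ (b * X) := by ring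

theorem W_le (n m C c : ℕ) :
    (n + et C m n + 2) ^ c ≤ 2 ^ ((C + 3) * c * (n + 2) ^ (m + 2)) := by
  have h1 := Nat.pow_le_pow_left (num_l n m C) c
  unfold et
  refine h1.trans ?_
  rw [← pow_mul]
  apply Nat.pow_le_pow_right (by norm_num)
  calc (C + 3) * (n + 2) ^ (m + 1) * c = (C + 3) * c * (n + 2) ^ (m + 1) := by ring
    _ ≤ (C + 3) * c * (n + 2) ^ (m + 2) := Nat.mul_le_mul_left _ (num_X3 n m)

theorem T_le (n m C : ℕ) : et C m n ≤ 2 ^ ((C + 2) * (n + 2) ^ (m + 2)) := by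
  refine (num_T n m C).trans ?_
  apply Nat.pow_le_pow_right (by norm_num)
  exact Nat.mul_le_mul_left _ (num_X3 n m)

theorem reqA {X : Lang} (r : ℕ × ℕ × ℕ × ℕ) (O : Lang) (ρ : ℕ → Bool) (κ : ℕ) (hI : Inv X O ρ)
    (hZ : Z ρ (2 ^ κ)) : Next X (MetA r) O ρ κ := by
  obtain ⟨i, j, C, m⟩ := r
  obtain ⟨n, κ1, hκ, hps, hN⟩ :=
    (ps_spec m ((C + 3) + ((C + 2) + (C + 3) * ex j) + 2) κ).exists
  refine Next.mono (genA hI hZ hκ i j n (et C m n) (n ^ m + C) ?_) ?_
  · refine room_gen (X := (n + 2) ^ (m + 2)) (one_le_X _ _) (α := C + 3)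
      (β := (C + 2) + (C + 3) * ex j) ?_ ?_ hN
    · have h1 : n ^ m + C + 1 ≤ (C + 3) * (n + 2) ^ (m + 2) := by
        have g1 := (num_X2 n m).trans (num_X3 n m)
        have g2 := one_le_X n (m + 2)
        nlinarith
      have h2 : 2 ^ (n ^ m + C + 1) ≤ 2 ^ ((C + 3) * (n + 2) ^ (m + 2)) :=
        Nat.pow_le_pow_right (by norm_num) h1
      have h3 : 2 ^ (n ^ m + C + 1) = 2 ^ (n ^ m + C) + 2 ^ (n ^ m + C) := by ring
      have h4 : 1 ≤ 2 ^ (n ^ m + C) := Nat.one_le_two_pow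
      omega
    · rw [pow_split (C + 2)]
      exact Nat.mul_le_mul (T_le n m C) (W_le n m C (ex j))
  · intro O ρ h
    refine ⟨n, ?_⟩
    show n ^ m + C < _ ∨ _
    rw [hps]
    exact h

theorem reqB {X : Lang} (r : (ℕ × ℕ × ℕ × ℕ) × ℕ) (O : Lang) (ρ : ℕ → Bool) (κ : ℕ) (hI : Inv X O ρ)
    (hZ : Z ρ (2 ^ κ)) : Next X (MetB r) O ρ κ := by
  obtain ⟨⟨i, j, C, m⟩, n0⟩ := r
  obtain ⟨n, ⟨κ1, hκ, hps, hN⟩, hn0⟩ :=
    ((ps_spec m (2 + ((C + 3) + (C + 3) * ex j) + 2) κ).and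
      (Filter.eventually_ge_atTop n0)).exists
  refine Next.mono (genB hI hZ hκ i j n (et C m n) (2 ^ (n + 2) ^ (m + 2)) ?_) ?_
  · have hX := one_le_X n (m + 2)
    have h4 : 1 ≤ 2 ^ (n + 2) ^ (m + 2) := Nat.one_le_two_pow
    refine room_gen (X := (n + 2) ^ (m + 2)) (one_le_X _ _) (α := 2)
      (β := (C + 3) + (C + 3) * ex j) ?_ ?_ hN
    · have h3 : 2 ^ (2 * (n + 2) ^ (m + 2)) = 2 ^ (n + 2) ^ (m + 2) * 2 ^ (n + 2) ^ (m + 2) := by
        ring
      have h5 : 2 ≤ 2 ^ (n + 2) ^ (m + 2) := by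
        calc 2 = 2 ^ 1 := by norm_num
          _ ≤ _ := Nat.pow_le_pow_right (by norm_num) hX
      rw [h3]
      nlinarith
    · rw [pow_split (C + 3)]
      refine Nat.mul_le_mul ?_ (W_le n m C (ex j))
      have h1 := T_le n m C
      have h5 : 2 ≤ 2 ^ (n + 2) ^ (m + 2) := by
        calc 2 = 2 ^ 1 := by norm_num
          _ ≤ _ := Nat.pow_le_pow_right (by norm_num) hX
      have h6 : 2 ^ ((C + 3) * (n + 2) ^ (m + 2)) =
        2 ^ ((C + 2) * (n + 2) ^ (m + 2)) * 2 ^ (n + 2) ^ (m + 2) := by ring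
      have h7 : 2 ≤ 2 ^ ((C + 2) * (n + 2) ^ (m + 2)) := by
        calc 2 = 2 ^ 1 := by norm_num
          _ ≤ _ := Nat.pow_le_pow_right (by norm_num) (by nlinarith)
      rw [h6]
      nlinarith
  · intro O ρ h
    refine ⟨n, hn0, ?_⟩
    show 2 ^ (n + 2) ^ (m + 2) < census (NL j O) (n + et C m n) ∨
      accC ((tr i n (et C m n)).eval (join O (NL j O))) ≠ ρ (ps m n)
    rw [hps]
    exact h

theorem reqC {X : Lang} (r : ℕ × ℕ × ℕ) (O : Lang) (ρ : ℕ → Bool) (κ : ℕ) (hI : Inv X O ρ)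
    (hZ : Z ρ (2 ^ κ)) : Next X (MetC r) O ρ κ := by
  obtain ⟨i, j, n0⟩ := r
  obtain ⟨n, ⟨κ1, hκ, hps, hN⟩, hn0⟩ :=
    ((ps_spec 0 (2 + ((ex i + 1) + (ex i + 1) * ex j) + 2) κ).and
      (Filter.eventually_ge_atTop n0)).exists
  refine Next.mono (genB hI hZ hκ i j n ((n + 2) ^ ex i) (2 ^ n) ?_) ?_
  · have hX := one_le_X n (0 + 2)
    have hX2 : n + 2 ≤ (n + 2) ^ (0 + 2) := (num_X1 n 0).trans (num_X3 n 0)
    have hn2 : n + 2 ≤ 2 ^ (n + 2) ^ (0 + 2) :=
      hX2.trans Nat.lt_two_pow_self.le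
    have hT : (n + 2) ^ ex i ≤ 2 ^ (ex i * (n + 2) ^ (0 + 2)) := by
      rw [mul_comm, pow_mul]
      exact Nat.pow_le_pow_left hn2 _
    have hQ : 2 ^ n ≤ 2 ^ (n + 2) ^ (0 + 2) := Nat.pow_le_pow_right (by norm_num) (by omega)
    have hQ1 : 2 ^ n + 2 ^ n ≤ 2 ^ (n + 2) ^ (0 + 2) := by
      have : 2 ^ n + 2 ^ n = 2 ^ (n + 1) := by ring
      rw [this]
      exact Nat.pow_le_pow_right (by norm_num) (by omega)
    have h4 : 1 ≤ 2 ^ n := Nat.one_le_two_pow
    have h5 : 2 ≤ 2 ^ (n + 2) ^ (0 + 2) := by omega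
    have h7 : 1 ≤ 2 ^ (ex i * (n + 2) ^ (0 + 2)) := Nat.one_le_two_pow
    have h6 : 2 ^ ((ex i + 1) * (n + 2) ^ (0 + 2)) =
        2 ^ (ex i * (n + 2) ^ (0 + 2)) * 2 ^ (n + 2) ^ (0 + 2) := by ring
    refine room_gen (X := (n + 2) ^ (0 + 2)) (one_le_X _ _) (α := 2)
      (β := (ex i + 1) + (ex i + 1) * ex j) ?_ ?_ hN
    · have h3 : 2 ^ (2 * (n + 2) ^ (0 + 2)) = 2 ^ (n + 2) ^ (0 + 2) * 2 ^ (n + 2) ^ (0 + 2) := by
        ring
      rw [h3]
      nlinarith
    · rw [pow_split (ex i + 1)]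
      refine Nat.mul_le_mul ?_ ?_
      · rw [h6]
        nlinarith
      · have e : (ex i + 1) * ex j * (n + 2) ^ (0 + 2) =
          (ex i + 1) * (n + 2) ^ (0 + 2) * ex j := by ring
        rw [e, pow_mul]
        apply Nat.pow_le_pow_left
        rw [h6]
        have h8 : n + 2 + (n + 2) ^ ex i ≤ 2 ^ (ex i * (n + 2) ^ (0 + 2)) * 2 ^ (n + 2) ^ (0 + 2) := by
          have h9 : (n + 2) * 2 ≤ 2 ^ (n + 2) ^ (0 + 2) := by
            have g1 : n + 2 + 1 ≤ (n + 2) ^ (0 + 2) := by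
              have : (n + 2) ^ (0 + 2) = (n + 2) * (n + 2) := by ring
              rw [this]
              nlinarith
            have g2 : 2 ^ (n + 2 + 1) ≤ 2 ^ (n + 2) ^ (0 + 2) :=
              Nat.pow_le_pow_right (by norm_num) g1
            have g3 : n + 2 < 2 ^ (n + 2) := Nat.lt_two_pow_self
            have g4 : 2 ^ (n + 2 + 1) = 2 ^ (n + 2) * 2 := by ring
            omega
          have h10 : 1 ≤ (n + 2) ^ ex i := one_le_X _ _
          generalize 2 ^ (ex i * (n + 2) ^ (0 + 2)) = A at *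
          generalize 2 ^ (n + 2) ^ (0 + 2) = B at *
          generalize (n + 2) ^ ex i = E at *
          nlinarith
        omega
  · intro O ρ h
    refine ⟨n, hn0, ?_⟩
    show 2 ^ n < census (NL j O) (n + (n + 2) ^ ex i) ∨
      accC ((tr i n ((n + 2) ^ ex i)).eval (join O (NL j O))) ≠ ρ (ps 0 n)
    rw [hps]
    exact h

/-- All requirements can be met. -/
theorem exists_all (X : Lang) : ∃ (O : Lang) (ρ : ℕ → Bool), Inv X O ρ ∧ (∀ r, MetA r O ρ) ∧
    (∀ r, MetB r O ρ) ∧ ∀ r, MetC r O ρ := by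
  obtain ⟨O, ρ, hI, hM⟩ := limit X
    (ι := (ℕ × ℕ × ℕ × ℕ) ⊕ ((ℕ × ℕ × ℕ × ℕ) × ℕ) ⊕ (ℕ × ℕ × ℕ))
    (fun r => match r with
      | Sum.inl a => MetA a
      | Sum.inr (Sum.inl b) => MetB b
      | Sum.inr (Sum.inr c) => MetC c) (by
    intro r O ρ κ hI hZ
    match r with
    | Sum.inl a => exact reqA a O ρ κ hI hZ
    | Sum.inr (Sum.inl b) => exact reqB b O ρ κ hI hZ
    | Sum.inr (Sum.inr c) => exact reqC c O ρ κ hI hZ)
  exact ⟨O, ρ, hI, fun r => hM (Sum.inl r), fun r => hM (Sum.inr (Sum.inl r)),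
    fun r => hM (Sum.inr (Sum.inr r))⟩

end Pool.Agent.PSL
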