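import Pool.Agent.Lib_helper61.PSL.Diag

/-!
# Computation paths, witness paths, and the questions to a nondeterministic language
-/

set_option autoImplicit false

namespace Pool.Agent.PSL

open Pool.Agent.CK Pool.Agent.CKP

variable {β : Type}

/-- the questions on the path of the oracle `O` -/
def path (O : Lang) : DT β → List (List Bool)
  | .leaf _ => []
  | .node w n0 n1 => w :: (if O w = true then path O n1 else path O n0)

theorem path_length (O : Lang) (t : DT β) : (path O t).length ≤ t.depth := by
  induction t with
  | leaf b => exact le_rfl
  | node w n0 n1 h0 h1 =>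
    rw [path, DT.depth_node, List.length_cons]
    split_ifs <;> omega

theorem eval_of_path {O O' : Lang} (t : DT β) (h : ∀ w ∈ path O t, O' w = O w) :
    t.eval O' = t.eval O := by
  induction t with
  | leaf b => rfl
  | node w n0 n1 h0 h1 =>
    rw [path] at h
    have hw := h w (by simp)
    rw [DT.eval_node, DT.eval_node, hw]
    split_ifs with hc
    · apply h1
      intro v hv
      exact h v (by simp [hc, hv])
    · apply h0
      intro v hv
      exact h v (by simp [hc, hv])

theorem path_allQ {O : Lang} {P : List Bool → Prop} (t : DT β) (h : t.AllQ P) :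
    ∀ w ∈ path O t, P w := by
  induction t with
  | leaf b => intro w hw; simp [path] at hw
  | node v n0 n1 h0 h1 =>
    obtain ⟨hv, h2, h3⟩ := h
    intro w hw
    rw [path, List.mem_cons] at hw
    rcases hw with rfl | hw
    · exact hv
    · split_ifs at hw
      · exact h1 h3 w hw
      · exact h0 h2 w hw

/-- strings addressed to the second part of a joined oracle -/
def toB (w : List Bool) : Bool := w.head? == some true

/-- the number of questions to the second part of the oracle -/
def nB (O : Lang) : DT β → ℕ
  | .leaf _ => 0
  | .node w n0 n1 => (if toB w = true then 1 else 0) + (if O w = true then nB O n1 else nB O n0)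

/-- the answers to the questions to the second part, as a number with at most `b` digits -/
def pot (O : Lang) : DT β → ℕ → ℕ
  | .leaf _, _ => 0
  | .node w n0 n1, b =>
    if toB w = true then
      (if O w = true then 2 ^ (b - 1) + pot O n1 (b - 1) else pot O n0 (b - 1))
    else (if O w = true then pot O n1 b else pot O n0 b)

theorem pot_lt (O : Lang) (t : DT β) (b : ℕ) (h : nB O t ≤ b) : pot O t b < 2 ^ b := by
  induction t generalizing b with
  | leaf a => simp [pot]
  | node w n0 n1 h0 h1 =>
    rw [nB] at h
    rw [pot]
    by_cases hw : toB w = true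
    · simp only [hw, if_true] at h ⊢
      obtain ⟨b, rfl⟩ : ∃ b', b = b' + 1 := ⟨b - 1, by omega⟩
      have e : 2 ^ (b + 1) = 2 ^ b + 2 ^ b := by ring
      rw [Nat.add_sub_cancel, e]
      split_ifs with hc
      · rw [if_pos hc] at h
        have := h1 b (by omega)
        omega
      · rw [if_neg hc] at h
        have := h0 b (by omega)
        omega
    · simp only [hw] at h ⊢
      simp only [Bool.false_eq_true, if_false, zero_add] at h ⊢
      split_ifs with hc
      · rw [if_pos hc] at h
        exact h1 b h
      · rw [if_neg hc] at h
        exact h0 b h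

/-- If all positive answers and all answers of the first part are preserved along the path, then
the result is the same or the answers grow. -/
theorem pot_step {O O' : Lang} (t : DT β) (b : ℕ)
    (h : ∀ w ∈ path O t, (toB w = false ∨ O w = true) → O' w = O w)
    (h1 : nB O t ≤ b) (h2 : nB O' t ≤ b) :
    (t.eval O' = t.eval O ∧ pot O' t b = pot O t b) ∨ pot O t b < pot O' t b := by
  induction t generalizing b with
  | leaf a => exact Or.inl ⟨rfl, rfl⟩
  | node w n0 n1 g0 g1 =>
    rw [nB] at h1 h2
    rw [pot, pot, DT.eval_node, DT.eval_node]
    have hp : path O (DT.node w n0 n1) = w :: (if O w = true then path O n1 else path O n0) := rfl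
    rw [hp] at h
    by_cases hw : toB w = true
    · simp only [hw, if_true] at h1 h2 ⊢
      obtain ⟨b, rfl⟩ : ∃ b', b = b' + 1 := ⟨b - 1, by omega⟩
      rw [Nat.add_sub_cancel]
      by_cases hc : O w = true
      · have hc' : O' w = true := by rw [h w (by simp) (Or.inr hc), hc]
        rw [if_pos hc] at h1
        rw [if_pos hc'] at h2
        rw [if_pos hc, if_pos hc, if_pos hc', if_pos hc']
        have := g1 b (fun v hv => h v (by simp [hc, hv])) (by omega) (by omega)
        rcases this with ⟨e1, e2⟩ | e
        · left; exact ⟨e1, by rw [e2]⟩
        · right; omega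
      · rw [if_neg hc] at h1
        rw [if_neg hc, if_neg hc]
        by_cases hc' : O' w = true
        · rw [if_pos hc', if_pos hc']
          right
          have := pot_lt O n0 b (by omega)
          omega
        · rw [if_neg hc'] at h2
          rw [if_neg hc', if_neg hc']
          exact g0 b (fun v hv => h v (by simp [hc, hv])) (by omega) (by omega)
    · have hw' : toB w = false := by simpa using hw
      have he : O' w = O w := h w (by simp) (Or.inl hw')
      simp only [hw', Bool.false_eq_true, if_false, zero_add] at h1 h2 ⊢
      rw [he] at h2 ⊢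
      by_cases hc : O w = true
      · rw [if_pos hc] at h1 h2
        simp only [if_pos hc]
        exact g1 b (fun v hv => h v (by simp [hc, hv])) h1 h2
      · rw [if_neg hc] at h1 h2
        simp only [if_neg hc]
        exact g0 b (fun v hv => h v (by simp [hc, hv])) h1 h2

/-- a positive answer of an `NP` language has a short certificate -/
theorem cert (j : ℕ) (O : Lang) (q : List Bool) (h : NL j O q = true) :
    ∃ S : List (List Bool), S.length ≤ (q.length + 2) ^ ex j ∧
      ∀ O' : Lang, (∀ w ∈ S, O' w = O w) → NL j O' q = true := by
  classical
  unfold NL at h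
  rw [decide_eq_true_eq] at h
  obtain ⟨y, hy, hacc⟩ := h
  refine ⟨path O (runTree ((q.length + 2) ^ ex j) ([prog j], init q y)),
    (path_length _ _).trans (mach_depth_runTree _ _), fun O' hO' => ?_⟩
  have e := eval_of_path _ hO'
  rw [mach_eval_runTree, mach_eval_runTree] at e
  unfold NL
  rw [decide_eq_true_eq]
  refine ⟨y, hy, ?_⟩
  unfold accB run at hacc ⊢
  rw [e]
  exact hacc

/-- the strings that protect an answer of the joined oracle -/
theorem protect (j : ℕ) (O : Lang) (w : List Bool) (l : ℕ) (hw : w.length ≤ l + 1) :
    ∃ S : List (List Bool), S.length ≤ (l + 2) ^ ex j ∧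
      ∀ O' : Lang, (∀ v ∈ S, O' v = O v) →
        (toB w = false ∨ join O (NL j O) w = true) →
          join O' (NL j O') w = join O (NL j O) w := by
  have h1 : 1 ≤ (l + 2) ^ ex j := Nat.one_le_pow _ _ (by omega)
  match w with
  | [] => exact ⟨[], by simp, fun _ _ _ => rfl⟩
  | false :: v =>
    refine ⟨[v], by simpa using h1, fun O' hO' _ => ?_⟩
    exact hO' v (by simp)
  | true :: v =>
    by_cases hv : NL j O v = true
    · obtain ⟨S, hS, hS2⟩ := cert j O v hv
      refine ⟨S, hS.trans (Nat.pow_le_pow_left ?_ _), fun O' hO' _ => ?_⟩
      · simp only [List.length_cons] at hw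
        omega
      · show NL j O' v = NL j O v
        rw [hS2 O' hO', hv]
    · refine ⟨[], by simp, fun O' _ hc => ?_⟩
      exfalso
      rcases hc with hc | hc
      · simp [toB] at hc
      · exact hv hc

theorem flatMap_len {α γ : Type} (L : List α) (G : α → List γ) (W : ℕ)
    (h : ∀ a ∈ L, (G a).length ≤ W) : (L.flatMap G).length ≤ L.length * W := by
  induction L with
  | nil => simp
  | cons a t ih =>
    rw [List.flatMap_cons, List.length_append, List.length_cons, Nat.succ_mul]
    have h1 := h a (by simp)
    have h2 := ih fun b hb => h b (by simp [hb])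
    omega

/-- protecting a list of answers -/
theorem protects (j : ℕ) (O : Lang) (L : List (List Bool)) (l : ℕ)
    (hL : ∀ w ∈ L, w.length ≤ l + 1) :
    ∃ S : List (List Bool), S.length ≤ L.length * (l + 2) ^ ex j ∧
      ∀ O' : Lang, (∀ v ∈ S, O' v = O v) → ∀ w ∈ L,
        (toB w = false ∨ join O (NL j O) w = true) →
          join O' (NL j O') w = join O (NL j O) w := by
  have h : ∀ w : List Bool, ∃ S : List (List Bool), w.length ≤ l + 1 →
      S.length ≤ (l + 2) ^ ex j ∧
      ∀ O' : Lang, (∀ v ∈ S, O' v = O v) →
        (toB w = false ∨ join O (NL j O) w = true) →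
          join O' (NL j O') w = join O (NL j O) w := by
    intro w
    by_cases hw : w.length ≤ l + 1
    · obtain ⟨S, hS⟩ := protect j O w l hw
      exact ⟨S, fun _ => hS⟩
    · exact ⟨[], fun h => absurd h hw⟩
  choose G hG using h
  refine ⟨L.flatMap G, flatMap_len L G _ fun a ha => (hG a (hL a ha)).1, fun O' hO' w hw => ?_⟩
  exact (hG w (hL w hw)).2 O' fun v hv => hO' v (List.mem_flatMap.2 ⟨w, hw, hv⟩)

/-! ### counting the questions of a run -/

/-- the next step is a question to the second part of the joined oracle -/
def asksB : Config → Bool
  | (Cmd.ask r _ _ :: _, s) => (s r).head? == some true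
  | _ => false

/-- The number of questions to `B` in the first `t` steps of the program `c` on the input `x` with
the joined oracle `O ⊕ B`. -/
def numQ (O B : Lang) (c : Cmd) (x : List Bool) (t : ℕ) : ℕ :=
  (List.range t).countP fun s => asksB (run (join O B) c x [] s)

theorem nB_runTree (O : Lang) (t : ℕ) : ∀ cf : Config,
    nB O (runTree t cf) = (List.range t).countP fun s => asksB ((step O)^[s] cf) := by
  induction t with
  | zero => intro cf; rfl
  | succ t ih =>
    intro cf
    have hr : (List.range (t + 1)).countP (fun s => asksB ((step O)^[s] cf)) =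
        (if asksB cf = true then 1 else 0) +
          (List.range t).countP fun s => asksB ((step O)^[s] (step O cf)) := by
      rw [List.range_succ_eq_map, List.countP_cons, List.countP_map, Nat.add_comm]
      congr 1
    rw [hr, ← ih (step O cf)]
    obtain ⟨l, s⟩ := cf
    cases l with
    | nil => rw [mach_runTree_nil]; simp [asksB, step]
    | cons cmd k =>
      by_cases h : ∃ r c d, cmd = Cmd.ask r c d
      · obtain ⟨r, c, d, rfl⟩ := h
        rw [mach_runTree_ask, nB]
        congr 1
        rw [step]
        split_ifs <;> rfl
      · have h' : ∀ r c d, cmd ≠ Cmd.ask r c d := fun r c d e => h ⟨r, c, d, e⟩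
        rw [mach_runTree_succ t cmd k s h', mach_step_eq O cmd k s h']
        have : asksB (cmd :: k, s) = false := by
          cases cmd with
          | ask r c d => exact absurd rfl (h' r c d)
          | _ => rfl
        rw [this]
        simp

end Pool.Agent.PSL
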